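import Pool.Agent.Lib_helper71.Cmp.Main

open Set Metric Topology

namespace CmpZ

lemma Cov.biUnion {M : Type*} [MetricSpace M] {L : Set M} {ι : Type*} (G : ι → Set M)
    (hGo : ∀ i, IsOpen (G i)) (hGL : ∀ i, Disjoint (G i) L) (hG : ∀ i, DD L 1 (G i))
    (s : Finset ι) : Cov L (⋃ i ∈ s, G i) := by
  classical
  induction s using Finset.induction_on with
  | empty => simpa using Cov.empty
  | insert a s _ ih =>
    rw [Finset.set_biUnion_insert, union_comm]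
    exact ih.union (hGo a) (hGL a) (hG a)

lemma Cov.iUnion {M : Type*} [MetricSpace M] {L : Set M} {ι : Type*} [Fintype ι] (G : ι → Set M)
    (hGo : ∀ i, IsOpen (G i)) (hGL : ∀ i, Disjoint (G i) L) (hG : ∀ i, DD L 1 (G i)) :
    Cov L (⋃ i, G i) := by
  have := Cov.biUnion G hGo hGL hG Finset.univ
  simpa using this

variable {n : ℕ}

/-- The bricks. -/
def brick (L : Set (Fin n → ℝ)) (k : ℕ) (j : Fin n → ℤ) : Set (Fin n → ℝ) :=
  {x | (1 / 2 : ℝ) ^ k < 2 * infDist x L ∧ infDist x L < 2 * (1 / 2 : ℝ) ^ k ∧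
    ∀ i, (j i : ℝ) * (1 / 2 : ℝ) ^ k < x i ∧ x i < (j i + 2 : ℝ) * (1 / 2 : ℝ) ^ k}

lemma isOpen_brick (L : Set (Fin n → ℝ)) (k : ℕ) (j : Fin n → ℤ) : IsOpen (brick L k j) := by
  have : brick L k j = {x | (1 / 2 : ℝ) ^ k < 2 * infDist x L} ∩
      {x | infDist x L < 2 * (1 / 2 : ℝ) ^ k} ∩
      ⋂ i, ({x | (j i : ℝ) * (1 / 2 : ℝ) ^ k < x i} ∩
        {x | x i < (j i + 2 : ℝ) * (1 / 2 : ℝ) ^ k}) := by
    ext x
    simp only [brick, mem_ofPred_eq, mem_inter_iff, mem_iInter]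
    tauto
  rw [this]
  refine ((isOpen_lt continuous_const (continuous_const.mul (continuous_infDist_pt L))).inter
    (isOpen_lt (continuous_infDist_pt L) continuous_const)).inter ?_
  refine isOpen_iInter_of_finite fun i => ?_
  exact (isOpen_lt continuous_const (continuous_apply i)).inter
    (isOpen_lt (continuous_apply i) continuous_const)

/-- The colour classes. -/
def colour (L : Set (Fin n → ℝ)) (c : Bool × (Fin n → Bool)) : Set (Fin n → ℝ) :=
  ⋃ s : {s : ℕ × (Fin n → ℤ) // (Even s.1 ↔ c.1 = true) ∧ ∀ i, (Even (s.2 i) ↔ c.2 i = true)},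
    brick L s.1.1 s.1.2

lemma disjoint_brick (L : Set (Fin n → ℝ)) {s t : ℕ × (Fin n → ℤ)} (h1 : Even s.1 ↔ Even t.1)
    (h2 : ∀ i, Even (s.2 i) ↔ Even (t.2 i)) (hst : s ≠ t) :
    Disjoint (brick L s.1 s.2) (brick L t.1 t.2) := by
  have key : ∀ k k' : ℕ, (Even k ↔ Even k') → k < k' → ∀ x : Fin n → ℝ,
      (1 / 2 : ℝ) ^ k < 2 * infDist x L → infDist x L < 2 * (1 / 2 : ℝ) ^ k' → False := by
    intro k k' he hlt x hx hx'
    have h2 : k + 2 ≤ k' := by
      rcases Nat.even_or_odd k with hk | hk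
      · have hk' := he.1 hk
        obtain ⟨a, ha⟩ := hk
        obtain ⟨b, hb⟩ := hk'
        omega
      · have hk' : Odd k' := by
          rw [← Nat.not_even_iff_odd] at hk ⊢
          exact fun h => hk (he.2 h)
        obtain ⟨a, ha⟩ := hk
        obtain ⟨b, hb⟩ := hk'
        omega
    have h3 := pow_le_pow_of_le_one (show (0 : ℝ) ≤ 1 / 2 by norm_num) (by norm_num) h2
    rw [pow_add] at h3
    norm_num at h3 hx hx'
    linarith
  rw [disjoint_left]
  rintro x ⟨hx1, hx2, hx3⟩ ⟨hy1, hy2, hy3⟩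
  rcases lt_trichotomy s.1 t.1 with h | h | h
  · exact key _ _ h1 h x hx1 hy2
  · have hne : s.2 ≠ t.2 := fun h' => hst (Prod.ext h h')
    obtain ⟨i, hi⟩ := Function.ne_iff.1 hne
    have hpos : (0 : ℝ) < (1 / 2 : ℝ) ^ s.1 := by positivity
    have hx4 := hx3 i
    have hy4 := hy3 i
    rw [← h] at hy4
    have e1 : (s.2 i : ℝ) < (t.2 i : ℝ) + 2 := by
      have := hx4.1.trans hy4.2
      exact lt_of_mul_lt_mul_right this hpos.le
    have e2 : (t.2 i : ℝ) < (s.2 i : ℝ) + 2 := by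
      have := hy4.1.trans hx4.2
      exact lt_of_mul_lt_mul_right this hpos.le
    have e1' : s.2 i < t.2 i + 2 := by exact_mod_cast e1
    have e2' : t.2 i < s.2 i + 2 := by exact_mod_cast e2
    have he := h2 i
    rcases Int.even_or_odd (s.2 i) with hk | hk
    · have hk' := he.1 hk
      obtain ⟨a, ha⟩ := hk
      obtain ⟨b, hb⟩ := hk'
      omega
    · have hk' : Odd (t.2 i) := by
        rw [← Int.not_even_iff_odd] at hk ⊢
        exact fun h => hk (he.2 h)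
      obtain ⟨a, ha⟩ := hk
      obtain ⟨b, hb⟩ := hk'
      omega
  · exact key _ _ h1.symm h x hy1 hx2

lemma brick_diam (L : Set (Fin n → ℝ)) (k : ℕ) (j : Fin n → ℤ) {x y : Fin n → ℝ}
    (hx : x ∈ brick L k j) (hy : y ∈ brick L k j) : dist x y ≤ 2 * (1 / 2 : ℝ) ^ k := by
  rw [dist_pi_le_iff (by positivity)]
  intro i
  have h1 := hx.2.2 i
  have h2 := hy.2.2 i
  rw [Real.dist_eq, abs_le]
  constructor <;> nlinarith [h1.1, h1.2, h2.1, h2.2]

lemma colour_DD {L : Set (Fin n → ℝ)} (c : Bool × (Fin n → Bool)) :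
    DD L 1 (colour L c) := by
  intro r hr ε hε
  refine ⟨ε / 5, by positivity,
    ⋃ s : {s : ℕ × (Fin n → ℤ) // (Even s.1 ↔ c.1 = true) ∧ ∀ i, (Even (s.2 i) ↔ c.2 i = true)},
      ⋃ _ : (brick L s.1.1 s.1.2 ∩ ball r (ε / 5)).Nonempty, brick L s.1.1 s.1.2,
    ⋃ s : {s : ℕ × (Fin n → ℤ) // (Even s.1 ↔ c.1 = true) ∧ ∀ i, (Even (s.2 i) ↔ c.2 i = true)},
      ⋃ _ : ¬ (brick L s.1.1 s.1.2 ∩ ball r (ε / 5)).Nonempty, brick L s.1.1 s.1.2,
    isOpen_iUnion fun s => isOpen_iUnion fun _ => isOpen_brick _ _ _,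
    isOpen_iUnion fun s => isOpen_iUnion fun _ => isOpen_brick _ _ _, ?_, ?_, ?_, ?_⟩
  · rw [disjoint_left]
    rintro x ⟨-, hx⟩ hy
    rw [mem_iUnion₂] at hx hy
    obtain ⟨s, hs, hxs⟩ := hx
    obtain ⟨t, ht, hxt⟩ := hy
    by_cases hst : s = t
    · rw [hst] at hs
      exact ht hs
    · have hd := disjoint_brick L (s := s.1) (t := t.1) (s.2.1.trans t.2.1.symm)
        (fun i => (s.2.2 i).trans (t.2.2 i).symm) (fun h => hst (Subtype.ext h))
      exact disjoint_left.1 hd hxs hxt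
  · rintro x ⟨hx, hxb⟩
    rw [colour, mem_iUnion] at hx
    obtain ⟨s, hxs⟩ := hx
    rw [mem_iUnion₂]
    exact ⟨s, ⟨x, hxs, hxb⟩, hxs⟩
  · rintro x ⟨hx, hxb⟩
    rw [colour, mem_iUnion] at hx
    obtain ⟨s, hxs⟩ := hx
    rw [mem_iUnion₂]
    refine ⟨s, ?_, hxs⟩
    rintro ⟨y, hy, hyb⟩
    apply hxb
    rw [mem_ball] at hyb ⊢
    have h1 := brick_diam L _ _ hxs hy
    have h2 := hy.1
    have h3 : infDist y L ≤ dist y r := infDist_le_dist_of_mem hr
    have := dist_triangle x y r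
    linarith
  · show _ = ∅
    rw [diff_eq_empty]
    intro x hx
    rw [colour, mem_iUnion] at hx
    obtain ⟨s, hxs⟩ := hx
    by_cases hs : (brick L s.1.1 s.1.2 ∩ ball r (ε / 5)).Nonempty
    · left
      rw [mem_iUnion₂]
      exact ⟨s, hs, hxs⟩
    · right
      rw [mem_iUnion₂]
      exact ⟨s, hs, hxs⟩

lemma colour_disjoint {L : Set (Fin n → ℝ)} (c : Bool × (Fin n → Bool)) :
    Disjoint (colour L c) L := by
  rw [disjoint_left]
  intro x hx hxL
  rw [colour, mem_iUnion] at hx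
  obtain ⟨s, hxs⟩ := hx
  have h1 := hxs.1
  rw [infDist_zero_of_mem hxL, mul_zero] at h1
  exact absurd h1 (not_lt.2 (by positivity))

lemma isOpen_colour {L : Set (Fin n → ℝ)} (c : Bool × (Fin n → Bool)) : IsOpen (colour L c) :=
  isOpen_iUnion fun s => isOpen_brick _ _ _

lemma cover_colour {L : Set (Fin n → ℝ)} {x : Fin n → ℝ} (h0 : 0 < infDist x L)
    (h1 : infDist x L < 2) : x ∈ ⋃ c, colour L c := by
  obtain ⟨k, hk1, hk2⟩ : ∃ k : ℕ, (1 / 2 : ℝ) ^ k < 2 * infDist x L ∧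
      infDist x L < 2 * (1 / 2 : ℝ) ^ k := by
    classical
    have hex : ∃ k : ℕ, (1 / 2 : ℝ) ^ k < 2 * infDist x L :=
      exists_pow_lt_of_lt_one (by positivity) (by norm_num)
    refine ⟨Nat.find hex, Nat.find_spec hex, ?_⟩
    rcases Nat.eq_zero_or_pos (Nat.find hex) with h | h
    · rw [h]; simpa using h1
    · have := Nat.find_min hex (Nat.sub_lt h one_pos)
      push Not at this
      have e : (1 / 2 : ℝ) ^ (Nat.find hex) = (1 / 2 : ℝ) ^ (Nat.find hex - 1) * (1 / 2) := by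
        rw [← pow_succ]
        congr 1
        omega
      rw [e]
      linarith
  have hpos : (0 : ℝ) < (1 / 2 : ℝ) ^ k := by positivity
  set j : Fin n → ℤ := fun i => ⌈x i / (1 / 2 : ℝ) ^ k⌉ - 1 with hj
  have hxb : x ∈ brick L k j := by
    refine ⟨hk1, hk2, fun i => ?_⟩
    have e1 := Int.ceil_lt_add_one (x i / (1 / 2 : ℝ) ^ k)
    have e2 := Int.le_ceil (x i / (1 / 2 : ℝ) ^ k)
    rw [div_le_iff₀ hpos] at e2
    have e1' : ((⌈x i / (1 / 2 : ℝ) ^ k⌉ : ℝ) - 1) < x i / (1 / 2 : ℝ) ^ k := by linarith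
    rw [lt_div_iff₀ hpos] at e1'
    simp only [hj, Int.cast_sub, Int.cast_one]
    refine ⟨e1', ?_⟩
    linarith
  rw [mem_iUnion]
  refine ⟨(decide (Even k), fun i => decide (Even (j i))), ?_⟩
  rw [colour, mem_iUnion]
  exact ⟨⟨(k, j), by simp, by simp⟩, hxb⟩

end CmpZ
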