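import Mathlib

/-!
Definitions for the problem on the small inductive compactness degree of the cube with one open
face removed.
-/

open Set

namespace CmpZ

/-- `S` is a partition between the point `p` and the set `G` in the space `X`: `S` is closed and
`X \ S` is the union of two disjoint open sets `U ∋ p` and `V ⊇ G`. -/
def IsPartition {X : Type*} [TopologicalSpace X] (p : X) (G S : Set X) : Prop :=
  IsClosed S ∧ ∃ U V : Set X, IsOpen U ∧ IsOpen V ∧ Disjoint U V ∧ Sᶜ = U ∪ V ∧ p ∈ U ∧ G ⊆ V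

/-- `CmpLE k X` says that the small inductive compactness degree of `X` is at most `k - 1`:
`cmp X ≤ -1` iff `X` is compact, and `cmp X ≤ k` (for `k ≥ 0`) iff every point `p` and every
closed set `G` with `p ∉ G` admit a partition `S` with `cmp S ≤ k - 1`. -/
def CmpLE : ℕ → (X : Type) → [TopologicalSpace X] → Prop
  | 0, X, _ => CompactSpace X
  | k + 1, X, _ => ∀ (p : X) (G : Set X), IsClosed G → p ∉ G →
      ∃ S : Set X, IsPartition p G S ∧ CmpLE k S

/-- `cmp X = k` for a natural number `k`: `cmp X ≤ k` but not `cmp X ≤ k - 1`. -/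
def CmpEq (X : Type) [TopologicalSpace X] (k : ℕ) : Prop := CmpLE (k + 1) X ∧ ¬ CmpLE k X

/-- The open face `E^{n-1} = {(x_1, ..., x_{n-1}, 1) : -1 < x_i < 1}` of the cube `[-1,1]^n`. The
coordinates are indexed by `Fin n = {0, ..., n-1}`, the last one being the `i` with `i + 1 = n`. -/
def openFace (n : ℕ) : Set (Fin n → ℝ) :=
  {x | ∀ i : Fin n, if (i : ℕ) + 1 = n then x i = 1 else x i ∈ Ioo (-1 : ℝ) 1}

/-- `Z_n = [-1,1]^n \ E^{n-1}`, with the subspace topology from `ℝ^n`. -/
def Z (n : ℕ) : Set (Fin n → ℝ) :=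
  {x | ∀ i, x i ∈ Icc (-1 : ℝ) 1} \ openFace n

end CmpZ
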