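import Mathlib

open Set Metric Topology

namespace CmpZ

lemma const_of_int {u : ℝ → ℝ} (hu : Continuous u) (hint : ∀ t, ∃ m : ℤ, u t = m) (s t : ℝ) :
    u s = u t := by
  choose v hv using hint
  have hvc : Continuous v := by
    rw [Int.isClosedEmbedding_coe_real.isInducing.continuous_iff]
    convert hu using 1
    ext t
    exact (hv t).symm
  rw [hv, hv, PreconnectedSpace.constant inferInstance hvc (x := s) (y := t)]

/-- Two disjoint closed sets, each missed by one of two paths between `a` and `b`, do not separate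
`a` and `b` in the plane. -/
theorem planar {U V F₁ F₂ : Set (ℝ × ℝ)} (hU : IsOpen U) (hV : IsOpen V) (hUV : Disjoint U V)
    (hF₁ : IsClosed F₁) (hF₂ : IsClosed F₂) (hF : Disjoint F₁ F₂) (hcov : U ∪ V = (F₁ ∪ F₂)ᶜ)
    {a b : ℝ × ℝ} (ha : a ∈ U) (hb : b ∈ V) {α β : ℝ → ℝ × ℝ} (hα : Continuous α)
    (hβ : Continuous β) {s t : ℝ} (hαs : α s = a) (hαt : α t = b) (hβs : β s = a) (hβt : β t = b)
    (hα2 : ∀ r, α r ∉ F₂) (hβ1 : ∀ r, β r ∉ F₁) : False := by
  obtain ⟨φ, hφ1, hφ2, -⟩ := exists_continuous_zero_one_of_isClosed hF₁ hF₂ hF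
  have hUV' := disjoint_left.1 hUV
  have hbU : b ∈ Uᶜ := fun h => hUV' h hb
  have haV : a ∈ Vᶜ := fun h => hUV' ha h
  set σ : ℝ × ℝ → ℝ := fun x => infDist x Uᶜ - infDist x Vᶜ with hσ
  have hσc : Continuous σ := (continuous_infDist_pt _).sub (continuous_infDist_pt _)
  have hσU : ∀ x ∈ U, 0 < σ x := by
    intro x hx
    have h1 : 0 < infDist x Uᶜ := by
      rw [← hU.isClosed_compl.notMem_iff_infDist_pos ⟨b, hbU⟩]
      exact fun h => h hx
    have h2 : infDist x Vᶜ = 0 := infDist_zero_of_mem fun h => hUV' hx h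
    simp only [hσ]
    linarith
  have hσV : ∀ x ∈ V, σ x < 0 := by
    intro x hx
    have h1 : 0 < infDist x Vᶜ := by
      rw [← hV.isClosed_compl.notMem_iff_infDist_pos ⟨a, haV⟩]
      exact fun h => h hx
    have h2 : infDist x Uᶜ = 0 := infDist_zero_of_mem fun h => hUV' h hx
    simp only [hσ]
    linarith
  have hσF : ∀ x, σ x = 0 → x ∈ F₁ ∪ F₂ := by
    intro x hx
    by_contra hn
    have : x ∈ U ∪ V := hcov ▸ hn
    rcases this with h | h
    · exact absurd hx (hσU x h).ne'
    · exact absurd hx (hσV x h).ne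
  set f : ℝ × ℝ → ℂ := fun x => ⟨1 - 2 * φ x, σ x⟩ with hf
  have hfc : Continuous f := by
    have : f = fun x => ((1 - 2 * φ x : ℝ) : ℂ) + (σ x : ℂ) * Complex.I := by
      ext x
      simp only [hf]
      apply Complex.ext <;> simp
    rw [this]
    fun_prop
  have hre1 : ∀ x ∈ F₁, (f x).re = 1 := by
    intro x hx
    have : φ x = 0 := hφ1 hx
    simp [hf, this]
  have hre2 : ∀ x ∈ F₂, (f x).re = -1 := by
    intro x hx
    have : φ x = 1 := hφ2 hx
    simp only [hf, this]
    norm_num
  have hf0 : ∀ x, f x ≠ 0 := by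
    intro x hx
    have h1 : (f x).im = 0 := by rw [hx]; rfl
    have h2 : (f x).re = 0 := by rw [hx]; rfl
    rcases hσF x h1 with h | h
    · rw [hre1 x h] at h2; norm_num at h2
    · rw [hre2 x h] at h2; norm_num at h2
  obtain ⟨g, hg1, hg2⟩ := Complex.exists_continuousOn_eqOn_exp_comp (X := ℝ × ℝ) (U := univ)
    (g := f) (by
      have : ContractibleSpace (univ : Set (ℝ × ℝ)) :=
        (convex_univ (𝕜 := ℝ)).contractibleSpace univ_nonempty
      show SimplyConnectedSpace (univ : Set (ℝ × ℝ))
      infer_instance) isOpen_univ hfc.continuousOn (by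
      rintro ⟨x, -, hx⟩
      exact hf0 x hx)
  have hgc : Continuous g := by rwa [continuousOn_univ] at hg1
  have hge : ∀ x, Complex.exp (g x) = f x := fun x => hg2 (mem_univ x)
  have hpi := Real.pi_pos
  -- along `α`
  have hslit1 : ∀ r, f (α r) ∈ Complex.slitPlane := by
    intro r
    rw [Complex.mem_slitPlane_iff]
    by_cases h : (f (α r)).im = 0
    · left
      rcases hσF _ h with h' | h'
      · rw [hre1 _ h']; norm_num
      · exact absurd h' (hα2 r)
    · exact Or.inr h
  have hslit2 : ∀ r, -f (β r) ∈ Complex.slitPlane := by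
    intro r
    rw [Complex.mem_slitPlane_iff]
    by_cases h : (f (β r)).im = 0
    · left
      rcases hσF _ h with h' | h'
      · exact absurd h' (hβ1 r)
      · rw [Complex.neg_re, hre2 _ h']; norm_num
    · right
      rw [Complex.neg_im]
      exact neg_ne_zero.2 h
  have e1 := const_of_int (u := fun r => ((g (α r)).im - (Complex.log (f (α r))).im) /
      (2 * Real.pi)) (by
      have h1 : Continuous fun r => (g (α r)).im :=
        Complex.continuous_im.comp (hgc.comp hα)
      have h2 : Continuous fun r => (Complex.log (f (α r))).im :=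
        Complex.continuous_im.comp ((hfc.comp hα).clog hslit1)
      exact (h1.sub h2).div_const _) (by
      intro r
      have h : Complex.exp (g (α r) - Complex.log (f (α r))) = 1 := by
        rw [Complex.exp_sub, hge, Complex.exp_log (hf0 _), div_self (hf0 _)]
      rw [Complex.exp_eq_one_iff] at h
      obtain ⟨m, hm⟩ := h
      refine ⟨m, ?_⟩
      have := congrArg Complex.im hm
      simp at this
      rw [this]
      field_simp) s t
  have e2 := const_of_int (u := fun r => ((g (β r)).im - (Complex.log (-f (β r))).im - Real.pi) /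
      (2 * Real.pi)) (by
      have h1 : Continuous fun r => (g (β r)).im :=
        Complex.continuous_im.comp (hgc.comp hβ)
      have h2 : Continuous fun r => (Complex.log (-f (β r))).im :=
        Complex.continuous_im.comp ((hfc.comp hβ).neg.clog hslit2)
      exact ((h1.sub h2).sub continuous_const).div_const _) (by
      intro r
      have h : Complex.exp (g (β r) - Complex.log (-f (β r)) - Real.pi * Complex.I) = 1 := by
        rw [Complex.exp_sub, Complex.exp_sub, hge, Complex.exp_log (neg_ne_zero.2 (hf0 _)),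
          Complex.exp_pi_mul_I]
        have := hf0 (β r)
        field_simp
      rw [Complex.exp_eq_one_iff] at h
      obtain ⟨m, hm⟩ := h
      refine ⟨m, ?_⟩
      have := congrArg Complex.im hm
      simp at this
      rw [div_eq_iff (by positivity)]
      linarith) s t
  have h2pi : (2 * Real.pi) ≠ 0 := by positivity
  rw [div_left_inj' h2pi, hαs, hαt, Complex.log_im, Complex.log_im] at e1
  rw [div_left_inj' h2pi, hβs, hβt, Complex.log_im, Complex.log_im] at e2
  have e3 : Complex.arg (-f a) = Complex.arg (f a) - Real.pi :=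
    Complex.arg_neg_eq_arg_sub_pi_of_im_pos (hσU a ha)
  have e4 : Complex.arg (-f b) = Complex.arg (f b) + Real.pi :=
    Complex.arg_neg_eq_arg_add_pi_of_im_neg (hσV b hb)
  rw [e3, e4] at e2
  linarith

end CmpZ
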