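import Pool.Agent.Lib_helper71.Cmp.Defs
import Pool.Agent.Lib_helper71.Cmp.Planar

open Set Metric Topology

namespace CmpZ

/-- The pushed-in square. -/
def gam (n : ℕ) (c : ℝ) (x : ℝ × ℝ) : Fin n → ℝ := fun i =>
  if (i : ℕ) + 1 = n then 1 - c * (1 - max |x.1| |x.2|)
  else if (i : ℕ) = 0 then x.1 else if (i : ℕ) = 1 then x.2 else 0

/-- The closed square. -/
def sq : Set (ℝ × ℝ) := {x | |x.1| ≤ 1 ∧ |x.2| ≤ 1}

lemma isCompact_sq : IsCompact sq := by
  have : sq = Icc (-1 : ℝ) 1 ×ˢ Icc (-1 : ℝ) 1 := by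
    ext x
    simp only [sq, abs_le, mem_ofPred_eq, mem_prod, mem_Icc]
  rw [this]
  exact isCompact_Icc.prod isCompact_Icc

lemma continuous_gam (n : ℕ) (c : ℝ) : Continuous (gam n c) := by
  refine continuous_pi fun i => ?_
  unfold gam
  by_cases h : (i : ℕ) + 1 = n
  · simp only [if_pos h]; fun_prop
  · by_cases h0 : (i : ℕ) = 0
    · simp only [if_neg h, if_pos h0]; fun_prop
    · by_cases h1 : (i : ℕ) = 1
      · simp only [if_neg h, if_neg h0, if_pos h1]; fun_prop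
      · simp only [if_neg h, if_neg h0, if_neg h1]; fun_prop

lemma gam_mem_cube {n : ℕ} {c : ℝ} (hc0 : 0 ≤ c) (hc1 : c ≤ 1) {x : ℝ × ℝ} (hx : x ∈ sq) :
    ∀ i, gam n c x i ∈ Icc (-1 : ℝ) 1 := by
  intro i
  obtain ⟨h1, h2⟩ := hx
  have hm1 : max |x.1| |x.2| ≤ 1 := max_le h1 h2
  have hm0 : 0 ≤ max |x.1| |x.2| := le_max_of_le_left (abs_nonneg _)
  rw [abs_le] at h1 h2
  unfold gam
  split_ifs
  · constructor <;> nlinarith
  · exact h1
  · exact h2
  · norm_num

lemma gam_mem_Z {n : ℕ} (hn : 3 ≤ n) {c : ℝ} (hc0 : 0 ≤ c) (hc1 : c ≤ 1) {x : ℝ × ℝ}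
    (hx : x ∈ sq) (h : 0 < c ∨ max |x.1| |x.2| = 1) : gam n c x ∈ Z n := by
  refine ⟨gam_mem_cube hc0 hc1 hx, fun hE => ?_⟩
  have e1 := hE ⟨n - 1, by omega⟩
  have e2 := hE ⟨0, by omega⟩
  have e3 := hE ⟨1, by omega⟩
  have c1 : n - 1 + 1 = n := by omega
  have c2 : ¬ (0 + 1 = n) := by omega
  have c3 : ¬ (1 + 1 = n) := by omega
  simp only [gam, c1, c2, c3, if_true, if_false, one_ne_zero] at e1 e2 e3
  have hm : max |x.1| |x.2| = 1 := by
    rcases h with h | h
    · have : c * (1 - max |x.1| |x.2|) = 0 := by linarith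
      rcases mul_eq_zero.1 this with h' | h'
      · exact absurd h' h.ne'
      · linarith
    · exact h
  have h1 : |x.1| < 1 := abs_lt.2 e2
  have h2 : |x.2| < 1 := abs_lt.2 e3
  exact absurd hm (max_lt h1 h2).ne

lemma gam_zero_notMem {n : ℕ} {x : ℝ × ℝ} (hm : max |x.1| |x.2| < 1) :
    gam n 0 x ∉ Z n := by
  intro h
  apply h.2
  intro i
  unfold gam
  have h1 := abs_lt.1 ((le_max_left _ _).trans_lt hm)
  have h2 := abs_lt.1 ((le_max_right _ _).trans_lt hm)
  split_ifs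
  · simp
  · exact h1
  · exact h2
  · norm_num

lemma gam_eq_of_bdry {n : ℕ} {c c' : ℝ} {x : ℝ × ℝ} (hm : max |x.1| |x.2| = 1) :
    gam n c x = gam n c' x := by
  ext i
  simp only [gam, hm]
  simp

lemma gam_inj {n : ℕ} (hn : 3 ≤ n) {c c' : ℝ} {x y : ℝ × ℝ} (h : gam n c x = gam n c' y) :
    x = y := by
  have e2 := congrFun h ⟨0, by omega⟩
  have e3 := congrFun h ⟨1, by omega⟩
  have c2 : ¬ (0 + 1 = n) := by omega
  have c3 : ¬ (1 + 1 = n) := by omega
  simp only [gam, c2, c3, if_true, if_false, one_ne_zero] at e2 e3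
  exact Prod.ext e2 e3

lemma dist_gam {n : ℕ} {c : ℝ} (hc0 : 0 ≤ c) {x : ℝ × ℝ} (hx : x ∈ sq) :
    dist (gam n c x) (gam n 0 x) ≤ c := by
  rw [dist_pi_le_iff hc0]
  intro i
  obtain ⟨h1, h2⟩ := hx
  have hm1 : max |x.1| |x.2| ≤ 1 := max_le h1 h2
  have hm0 : 0 ≤ max |x.1| |x.2| := le_max_of_le_left (abs_nonneg _)
  unfold gam
  split_ifs
  · rw [Real.dist_eq, abs_le]
    constructor <;> nlinarith
  · simpa using hc0
  · simpa using hc0
  · simpa using hc0

/-- The separation of two disjoint closed subsets of the space by a compact set. -/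
lemma exists_compact_sep {S : Type} [TopologicalSpace S] (h : CmpLE 1 S) {T₁ T₂ : Set S}
    (hT₁ : IsCompact T₁) (hT₂ : IsClosed T₂) (hT : Disjoint T₁ T₂) :
    ∃ O W : Set S, IsOpen O ∧ IsOpen W ∧ Disjoint O W ∧ T₁ ⊆ O ∧ T₂ ⊆ W ∧
      IsCompact (O ∪ W)ᶜ := by
  refine hT₁.induction_on (p := fun A => ∃ O W : Set S, IsOpen O ∧ IsOpen W ∧ Disjoint O W ∧
    A ⊆ O ∧ T₂ ⊆ W ∧ IsCompact (O ∪ W)ᶜ) ?_ ?_ ?_ ?_
  · exact ⟨∅, univ, isOpen_empty, isOpen_univ, by simp, subset_rfl, subset_univ _, by simp⟩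
  · rintro A B hAB ⟨O, W, h1, h2, h3, h4, h5, h6⟩
    exact ⟨O, W, h1, h2, h3, hAB.trans h4, h5, h6⟩
  · rintro A B ⟨O, W, h1, h2, h3, h4, h5, h6⟩ ⟨O', W', h1', h2', h3', h4', h5', h6'⟩
    refine ⟨O ∪ O', W ∩ W', h1.union h1', h2.inter h2', ?_, union_subset_union h4 h4',
      subset_inter h5 h5', ?_⟩
    · rw [disjoint_left] at h3 h3' ⊢
      rintro x (hx | hx) ⟨hy, hy'⟩
      · exact h3 hx hy
      · exact h3' hx hy'
    · refine (h6.union h6').of_isClosed_subset ?_ ?_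
      · exact ((h1.union h1').union (h2.inter h2')).isClosed_compl
      · intro x hx
        simp only [mem_compl_iff, mem_union, mem_inter_iff, not_or, not_and] at hx ⊢
        tauto
  · intro s hs
    obtain ⟨K, ⟨hKc, U, V, hU, hV, hUV, hK, hsU, hTV⟩, hcomp⟩ := h s T₂ hT₂ (disjoint_left.1 hT hs)
    have hKcomp : IsCompact K := isCompact_iff_compactSpace.2 hcomp
    refine ⟨U, mem_nhdsWithin_of_mem_nhds (hU.mem_nhds hsU), U, V, hU, hV, hUV, subset_rfl, hTV, ?_⟩
    rw [← hK, compl_compl]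
    exact hKcomp

/-- The retraction of the plane to the square. -/
noncomputable def rho (x : ℝ × ℝ) : ℝ × ℝ := (max (-1) (min 1 x.1), max (-1) (min 1 x.2))

lemma continuous_rho : Continuous rho := by unfold rho; fun_prop

lemma rho_mem (x : ℝ × ℝ) : rho x ∈ sq := by
  simp only [rho, sq, mem_ofPred_eq, abs_le]
  refine ⟨⟨le_max_left _ _, ?_⟩, ⟨le_max_left _ _, ?_⟩⟩ <;>
  · apply max_le
    · norm_num
    · exact min_le_left _ _

lemma rho_of_mem {x : ℝ × ℝ} (hx : x ∈ sq) : rho x = x := by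
  obtain ⟨h1, h2⟩ := hx
  rw [abs_le] at h1 h2
  simp only [rho]
  rw [min_eq_right h1.2, min_eq_right h2.2, max_eq_right h1.1, max_eq_right h2.1]

noncomputable def pathU (t : ℝ) : ℝ × ℝ := (max (-1) (min 1 t), min 1 (max 0 (2 - |t|)))
noncomputable def pathD (t : ℝ) : ℝ × ℝ := (max (-1) (min 1 t), - min 1 (max 0 (2 - |t|)))

lemma path_fst (t : ℝ) : |max (-1) (min 1 t)| ≤ 1 := by
  rw [abs_le]
  refine ⟨le_max_left _ _, max_le (by norm_num) (min_le_left _ _)⟩

lemma path_snd (t : ℝ) : 0 ≤ min 1 (max 0 (2 - |t|)) :=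
  le_min (by norm_num) (le_max_left _ _)

lemma path_bdry (t : ℝ) : max |max (-1) (min 1 t)| |min 1 (max 0 (2 - |t|))| = 1 := by
  apply le_antisymm
  · apply max_le (path_fst t)
    rw [abs_of_nonneg (path_snd t)]
    exact min_le_left _ _
  · by_cases h : |t| ≤ 1
    · apply le_max_of_le_right
      rw [abs_of_nonneg (path_snd t)]
      apply le_min le_rfl
      apply le_max_of_le_right
      linarith
    · apply le_max_of_le_left
      push Not at h
      rw [lt_abs] at h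
      rcases h with h | h
      · rw [min_eq_left h.le, max_eq_right (by norm_num)]
        simp
      · rw [min_eq_right (by linarith), max_eq_left (by linarith)]
        simp

/-- **Lower bound**: `cmp Z_n ≥ 2`. -/
theorem not_cmpLE_Z {n : ℕ} (hn : 3 ≤ n) : ¬ CmpLE 2 (Z n) := by
  intro h
  have hsqp : ((-1, 0) : ℝ × ℝ) ∈ sq := by simp [sq]
  have hsqq : ((1, 0) : ℝ × ℝ) ∈ sq := by simp [sq]
  have hZ1 : ∀ {x : ℝ × ℝ}, x ∈ sq → max |x.1| |x.2| = 1 → gam n 1 x ∈ Z n := fun hx hm =>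
    gam_mem_Z hn zero_le_one le_rfl hx (Or.inr hm)
  set p : Z n := ⟨gam n 1 (-1, 0), hZ1 hsqp (by simp)⟩ with hp
  set q : Z n := ⟨gam n 1 (1, 0), hZ1 hsqq (by simp)⟩ with hq
  have hpq : p ∉ ({q} : Set (Z n)) := by
    intro h'
    have h'' : p = q := h'
    have := gam_inj hn (congrArg Subtype.val h'')
    have := congrArg Prod.fst this
    norm_num at this
  obtain ⟨S, ⟨hSc, U, V, hU, hV, hUV, hS, hpU, hqV⟩, hcmp⟩ := h p {q} isClosed_singleton hpq
  have hqV : q ∈ V := hqV rfl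
  have hSemb : IsClosedEmbedding (Subtype.val : S → Z n) := hSc.isClosedEmbedding_subtypeVal
  -- the traces of `S` on the two arcs
  set B₁ : Set (ℝ × ℝ) := {x | x ∈ sq ∧ max |x.1| |x.2| = 1 ∧ 0 ≤ x.2} with hB₁
  set B₂ : Set (ℝ × ℝ) := {x | x ∈ sq ∧ max |x.1| |x.2| = 1 ∧ x.2 ≤ 0} with hB₂
  have hcm : Continuous fun x : ℝ × ℝ => max |x.1| |x.2| := by fun_prop
  have hB₁c : IsCompact B₁ := by
    refine isCompact_sq.of_isClosed_subset ?_ fun x hx => hx.1
    exact isCompact_sq.isClosed.inter ((isClosed_eq hcm continuous_const).inter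
      (isClosed_le continuous_const continuous_snd))
  have hB₂c : IsCompact B₂ := by
    refine isCompact_sq.of_isClosed_subset ?_ fun x hx => hx.1
    exact isCompact_sq.isClosed.inter ((isClosed_eq hcm continuous_const).inter
      (isClosed_le continuous_snd continuous_const))
  set T₁ : Set S := {s | (s.1.1 : Fin n → ℝ) ∈ gam n 1 '' B₁} with hT₁
  set T₂ : Set S := {s | (s.1.1 : Fin n → ℝ) ∈ gam n 1 '' B₂} with hT₂
  have hcomp : ∀ B : Set (ℝ × ℝ), IsCompact B → (∀ x ∈ B, gam n 1 x ∈ Z n) →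
      IsCompact {s : S | (s.1.1 : Fin n → ℝ) ∈ gam n 1 '' B} := by
    intro B hB hBZ
    have h1 : IsCompact {z : Z n | (z.1 : Fin n → ℝ) ∈ gam n 1 '' B} := by
      rw [Subtype.isCompact_iff]
      have : Subtype.val '' {z : Z n | (z.1 : Fin n → ℝ) ∈ gam n 1 '' B} = gam n 1 '' B := by
        ext y
        simp only [mem_image, mem_ofPred_eq, Subtype.exists, exists_and_right, exists_eq_right]
        constructor
        · rintro ⟨-, h'⟩; exact h'
        · rintro ⟨x, hx, rfl⟩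
          exact ⟨hBZ x hx, x, hx, rfl⟩
      rw [this]
      exact hB.image (continuous_gam n 1)
    exact hSemb.isCompact_preimage h1
  have hT₁c : IsCompact T₁ := hcomp B₁ hB₁c fun x hx => hZ1 hx.1 hx.2.1
  have hT₂c : IsCompact T₂ := hcomp B₂ hB₂c fun x hx => hZ1 hx.1 hx.2.1
  have hpS : p ∉ S := fun h' => (hS ▸ Or.inl hpU : p ∈ Sᶜ) h'
  have hqS : q ∉ S := fun h' => (hS ▸ Or.inr hqV : q ∈ Sᶜ) h'
  have hT : Disjoint T₁ T₂ := by
    rw [disjoint_left]
    rintro s ⟨x, hx, hxs⟩ ⟨y, hy, hys⟩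
    have hxy : x = y := gam_inj hn (hxs.trans hys.symm)
    subst hxy
    have hx2 : x.2 = 0 := le_antisymm hy.2.2 hx.2.2
    have hx1 : |x.1| = 1 := by
      have := hx.2.1
      rw [hx2, abs_zero, max_eq_left (abs_nonneg _)] at this
      exact this
    rcases (abs_eq one_pos.le).1 hx1 with h' | h'
    · have hxe : x = (1, 0) := Prod.ext h' hx2
      apply hqS
      have : q = s.1 := Subtype.ext (by rw [hq, ← hxs, hxe])
      rw [this]
      exact s.2
    · have hxe : x = (-1, 0) := Prod.ext h' hx2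
      apply hpS
      have : p = s.1 := Subtype.ext (by rw [hp, ← hxs, hxe])
      rw [this]
      exact s.2
  obtain ⟨O, W, hO, hW, hOW, hTO, hTW, hK⟩ := exists_compact_sep hcmp hT₁c hT₂c.isClosed hT
  -- the compact set misses the closed face
  set K' : Set (Fin n → ℝ) := (fun s : S => (s.1.1 : Fin n → ℝ)) '' (O ∪ W)ᶜ with hK'
  have hK'c : IsCompact K' := hK.image (continuous_subtype_val.comp continuous_subtype_val)
  have hdisj : Disjoint K' (gam n 0 '' sq) := by
    rw [disjoint_left]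
    rintro _ ⟨s, hs, rfl⟩ ⟨x, hx, hxs⟩
    have hxs' : gam n 0 x = s.1.1 := hxs
    rcases lt_or_eq_of_le (max_le hx.1 hx.2 : max |x.1| |x.2| ≤ 1) with hm | hm
    · exact gam_zero_notMem hm (hxs' ▸ s.1.2)
    · apply hs
      rw [gam_eq_of_bdry (c' := 1) hm] at hxs'
      rcases le_total 0 x.2 with h' | h'
      · left
        exact hTO ⟨x, ⟨hx, hm, h'⟩, hxs'⟩
      · right
        exact hTW ⟨x, ⟨hx, hm, h'⟩, hxs'⟩
  obtain ⟨δ, hδ, hδd⟩ := hdisj.exists_thickenings hK'c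
    (isCompact_sq.image (continuous_gam n 0)).isClosed
  set c : ℝ := min (δ / 2) 1 with hc
  have hc0 : 0 < c := by positivity
  have hc1 : c ≤ 1 := min_le_right _ _
  have hcδ : c < δ := by
    have : c ≤ δ / 2 := min_le_left _ _
    linarith
  have hcK : ∀ x ∈ sq, gam n c x ∉ K' := by
    intro x hx hxK
    refine disjoint_left.1 hδd (self_subset_thickening hδ _ hxK) ?_
    rw [mem_thickening_iff]
    exact ⟨gam n 0 x, mem_image_of_mem _ hx, (dist_gam hc0.le hx).trans_lt hcδ⟩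
  -- the map to `Z n`
  set Γ : ℝ × ℝ → Z n := fun x => ⟨gam n c (rho x), gam_mem_Z hn hc0.le hc1 (rho_mem x)
    (Or.inl hc0)⟩ with hΓ
  have hΓc : Continuous Γ := by
    apply Continuous.subtype_mk
    exact (continuous_gam n c).comp continuous_rho
  have hF1c : IsClosed (Γ ⁻¹' (Subtype.val '' Wᶜ)) :=
    (hSemb.isClosedMap _ hW.isClosed_compl).preimage hΓc
  have hF2c : IsClosed (Γ ⁻¹' (Subtype.val '' Oᶜ)) :=
    (hSemb.isClosedMap _ hO.isClosed_compl).preimage hΓc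
  refine planar (U := Γ ⁻¹' U) (V := Γ ⁻¹' V) (F₁ := Γ ⁻¹' (Subtype.val '' Wᶜ))
    (F₂ := Γ ⁻¹' (Subtype.val '' Oᶜ)) (hU.preimage hΓc) (hV.preimage hΓc) (hUV.preimage Γ)
    hF1c hF2c ?_ ?_ (a := (-1, 0)) (b := (1, 0)) ?_ ?_ (α := pathU) (β := pathD) ?_ ?_
    (s := -2) (t := 2) ?_ ?_ ?_ ?_ ?_ ?_
  · rw [disjoint_left]
    rintro x ⟨s, hs, hsx⟩ ⟨s', hs', hsx'⟩
    have hss : s = s' := Subtype.ext (hsx.trans hsx'.symm)
    subst hss
    apply hcK (rho x) (rho_mem x)
    refine ⟨s, ?_, ?_⟩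
    · rintro (h' | h')
      · exact hs' h'
      · exact hs h'
    · show s.1.1 = gam n c (rho x)
      rw [hsx]
  · rw [← preimage_union, ← preimage_union, ← preimage_compl, ← hS, ← image_union]
    congr 2
    rw [← compl_inter, inter_comm, (disjoint_iff_inter_eq_empty.1 hOW), compl_empty, image_univ,
      Subtype.range_coe]
  · show Γ (-1, 0) ∈ U
    have : Γ (-1, 0) = p := by
      apply Subtype.ext
      show gam n c (rho (-1, 0)) = gam n 1 (-1, 0)
      rw [rho_of_mem hsqp]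
      exact gam_eq_of_bdry (by simp)
    rw [this]; exact hpU
  · show Γ (1, 0) ∈ V
    have : Γ (1, 0) = q := by
      apply Subtype.ext
      show gam n c (rho (1, 0)) = gam n 1 (1, 0)
      rw [rho_of_mem hsqq]
      exact gam_eq_of_bdry (by simp)
    rw [this]; exact hqV
  · unfold pathU; fun_prop
  · unfold pathD; fun_prop
  · simp [pathU]
  · simp [pathU]
  · simp [pathD]
  · simp [pathD]
  · rintro r ⟨s, hs, hsr⟩
    apply hs
    apply hTO
    have hmem : pathU r ∈ sq := by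
      have := path_bdry r
      exact ⟨(le_max_left _ _).trans this.le, (le_max_right _ _).trans this.le⟩
    refine ⟨pathU r, ⟨hmem, path_bdry r, path_snd r⟩, ?_⟩
    have : s.1.1 = gam n c (rho (pathU r)) := by rw [hsr]
    show gam n 1 (pathU r) = s.1.1
    rw [this, rho_of_mem hmem]
    exact gam_eq_of_bdry (path_bdry r)
  · rintro r ⟨s, hs, hsr⟩
    apply hs
    apply hTW
    have hbd : max |(pathD r).1| |(pathD r).2| = 1 := by
      have := path_bdry r
      simp only [pathD, abs_neg]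
      exact this
    have hmem : pathD r ∈ sq :=
      ⟨(le_max_left _ _).trans hbd.le, (le_max_right _ _).trans hbd.le⟩
    refine ⟨pathD r, ⟨hmem, hbd, ?_⟩, ?_⟩
    · show - min 1 (max 0 (2 - |r|)) ≤ 0
      linarith [path_snd r]
    · have : s.1.1 = gam n c (rho (pathD r)) := by rw [hsr]
      show gam n 1 (pathD r) = s.1.1
      rw [this, rho_of_mem hmem]
      exact gam_eq_of_bdry hbd

end CmpZ
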