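import Pool.Agent.Lib_helper71.Cmp.Tools

open Set Metric Topology

namespace CmpZ

variable {M : Type*} [MetricSpace M]

lemma diff_diff_self_inter {α : Type*} (A B : Set α) : A \ (A \ B) = A ∩ B := by
  ext x
  simp only [mem_sdiff, mem_inter_iff]
  tauto

/-- The inductive claim. -/
def Claim (L Y : Set M) : Prop :=
  ∀ (Θ : Type) [LinearOrder Θ] [Countable Θ] (Ω : Θ → Set M), (∀ a, IsOpen (Ω a)) →
    (∀ ε > 0, {a | Big ε (Ω a)}.Finite) → ∀ (R : Set M) (ad : M → Θ), R ⊆ L →
    (∀ r ∈ R, r ∈ Ω (ad r)) → (∀ r ∈ R, ∀ b, ad r < b → r ∉ Ω b) →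
    ∃ O : Θ → Set M, (∀ a, O a ⊆ Y ∩ C1 L (Ω a)) ∧ (∀ a b, a ≠ b → Disjoint (O a) (O b)) ∧
      (∀ B : Set Θ, IsOpen (Y \ ⋃ b ∈ B, O b)) ∧
      ∀ r ∈ R, PAt (DD L 1) (Y \ ⋃ b ∈ Ici (ad r), O b) r

lemma Claim.empty (L : Set M) : Claim L ∅ := by
  intro Θ _ _ Ω _ _ R ad _ _ _
  refine ⟨fun _ => ∅, by simp, by simp, by simp, ?_⟩
  intro r _
  rw [empty_diff]
  exact PAt_empty (DD_empty 1) r

/-- Data extracted from the claim after refining the cover. -/
structure Pre (L Y : Set M) {Θ : Type} [LinearOrder Θ] (Ω : Θ → Set M) (R : Set M) (ad : M → Θ)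
    (Q W : Θ × ℕ → Set M) (N : Θ → Set M) : Prop where
  Qo : ∀ s, IsOpen (Q s)
  Qd : ∀ s t, s ≠ t → Disjoint (Q s) (Q t)
  QW : ∀ s, Q s ⊆ W s
  Wc : ∀ s, closure (W s) ⊆ Ω s.1
  null : ∀ ε > 0, {s | Big ε (W s)}.Finite
  No : ∀ a, IsOpen (N a)
  NY : ∀ a, N a ⊆ Y
  mono : Monotone N
  cover : ∀ a, Y ⊆ N a ∪ ⋃ s ∈ {s : Θ × ℕ | a ≤ s.1}, Q s
  P : ∀ r ∈ R, PAt (DD L 1) (N (ad r)) r

lemma Claim.pre {L Y : Set M} (hL : IsCompact L) (hY : IsOpen Y) (h : Claim L Y)
    {Θ : Type} [LinearOrder Θ] [Countable Θ] (Ω : Θ → Set M) (hΩ : ∀ a, IsOpen (Ω a))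
    (hnull : ∀ ε > 0, {a | Big ε (Ω a)}.Finite) (R : Set M) (ad : M → Θ) (hRL : R ⊆ L)
    (had : ∀ r ∈ R, r ∈ Ω (ad r)) (had' : ∀ r ∈ R, ∀ b, ad r < b → r ∉ Ω b) :
    ∃ (Q W : Θ × ℕ → Set M) (N : Θ → Set M), Pre L Y Ω R ad Q W N := by
  classical
  choose Λ V hΛc hVo hΛV hVc hcov hVnull using fun a => exists_refine hL (hΩ a)
  set Ω' : Θ ×ₗ ℕ → Set M := fun s =>
    V (ofLex s).1 (ofLex s).2 \ ⋃ j ∈ Finset.range (ofLex s).2, Λ (ofLex s).1 j with hΩ'
  set ad' : M → Θ ×ₗ ℕ := fun r => toLex (ad r, sInf {m | r ∈ Λ (ad r) m}) with had'def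
  have hVΩ : ∀ a m, V a m ⊆ Ω a := fun a m => subset_closure.trans (hVc a m)
  have hΩ'o : ∀ s, IsOpen (Ω' s) := by
    intro s
    refine (hVo _ _).sdiff ?_
    exact isClosed_biUnion_finset fun j _ => hΛc _ j
  have hVnull2 : ∀ ε > 0, {s : Θ × ℕ | Big ε (V s.1 s.2)}.Finite := by
    intro ε hε
    refine ((hnull ε hε).biUnion fun a _ => ((hVnull a ε hε).image (fun m => (a, m)))).subset ?_
    rintro ⟨a, m⟩ hs
    rw [mem_iUnion₂]
    exact ⟨a, Big.mono (hVΩ a m) hs, m, hs, rfl⟩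
  have hnull' : ∀ ε > 0, {s : Θ ×ₗ ℕ | Big ε (Ω' s)}.Finite := by
    intro ε hε
    refine ((hVnull2 ε hε).image toLex).subset ?_
    intro s hs
    refine ⟨ofLex s, Big.mono diff_subset hs, rfl⟩
  have hmem : ∀ r ∈ R, r ∈ Λ (ad r) (sInf {m | r ∈ Λ (ad r) m}) := by
    intro r hr
    have : r ∈ ⋃ m, Λ (ad r) m := hcov (ad r) ⟨had r hr, hRL hr⟩
    rw [mem_iUnion] at this
    exact Nat.sInf_mem (s := {m | r ∈ Λ (ad r) m}) this
  haveI : Countable (Θ ×ₗ ℕ) := inferInstanceAs (Countable (Θ × ℕ))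
  obtain ⟨O', hO1, hO2, hO3, hO4⟩ := h (Θ ×ₗ ℕ) Ω' hΩ'o hnull' R ad' hRL
    (by
      intro r hr
      refine ⟨hΛV _ _ (hmem r hr), ?_⟩
      intro hmem'
      rw [mem_iUnion₂] at hmem'
      obtain ⟨j, hj, hrj⟩ := hmem'
      exact Nat.notMem_of_lt_sInf (Finset.mem_range.1 hj) hrj)
    (by
      intro r hr s hs hrs
      rw [Prod.Lex.lt_iff] at hs
      rcases hs with hs | ⟨hs1, hs2⟩
      · exact had' r hr _ hs (hVΩ _ _ hrs.1)
      · apply hrs.2
        rw [mem_iUnion₂]
        refine ⟨sInf {m | r ∈ Λ (ad r) m}, Finset.mem_range.2 hs2, ?_⟩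
        have := hmem r hr
        have hs1' : ad r = (ofLex s).1 := hs1
        rw [← hs1']
        exact this)
  set Q : Θ × ℕ → Set M := fun s => Y ∩ Ω' (toLex s) ∩
    {x | infEDist x (O' (toLex s)) < infEDist x (⋃ t ∈ {t | t ≠ toLex s}, O' t)} with hQ
  have hOQ : ∀ s : Θ × ℕ, O' (toLex s) ⊆ Q s := by
    intro s x hx
    have hx1 := hO1 _ hx
    refine ⟨⟨hx1.1, C1_subset (hΩ'o _) hx1.2⟩, ?_⟩
    show infEDist x (O' (toLex s)) < infEDist x (⋃ t ∈ {t | t ≠ toLex s}, O' t)
    rw [infEDist_zero_of_mem hx, pos_iff_ne_zero]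
    intro h0
    rw [← mem_closure_iff_infEDist_zero] at h0
    have := closure_inter_subset_of_isOpen_diff (hO3 {t | t ≠ toLex s}) hx1.1 h0
    rw [mem_iUnion₂] at this
    obtain ⟨t, ht, hxt⟩ := this
    exact disjoint_left.1 (hO2 _ _ ht) hxt hx
  refine ⟨Q, fun s => V s.1 s.2, fun a => Y \ ⋃ t ∈ {t : Θ ×ₗ ℕ | a ≤ (ofLex t).1}, O' t,
    ⟨?_, ?_, ?_, ?_, hVnull2, ?_, ?_, ?_, ?_, ?_⟩⟩
  · intro s
    exact (hY.inter (hΩ'o _)).inter (isOpen_lt continuous_infEDist continuous_infEDist)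
  · intro s t hst
    rw [disjoint_left]
    rintro x ⟨-, hxs⟩ ⟨-, hxt⟩
    simp only [mem_ofPred_eq] at hxs hxt
    have h1 : infEDist x (⋃ t' ∈ {t' | t' ≠ toLex s}, O' t') ≤ infEDist x (O' (toLex t)) := by
      apply infEDist_anti
      intro y hy
      exact mem_biUnion (show toLex t ∈ {t' | t' ≠ toLex s} from fun h => hst (by
        simpa using h.symm)) hy
    have h2 : infEDist x (⋃ t' ∈ {t' | t' ≠ toLex t}, O' t') ≤ infEDist x (O' (toLex s)) := by
      apply infEDist_anti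
      intro y hy
      exact mem_biUnion (show toLex s ∈ {t' | t' ≠ toLex t} from fun h => hst (by
        simpa using h)) hy
    exact absurd (hxs.trans_le h1) (not_lt.2 (hxt.trans_le h2).le)
  · rintro s x ⟨⟨-, hx⟩, -⟩
    exact hx.1
  · exact fun s => hVc _ _
  · exact fun a => hO3 _
  · exact fun a => diff_subset
  · intro a b hab
    apply diff_subset_diff_right
    apply biUnion_subset_biUnion_left
    intro t ht
    exact le_trans hab ht
  · intro a x hx
    by_cases hxN : x ∈ ⋃ t ∈ {t : Θ ×ₗ ℕ | a ≤ (ofLex t).1}, O' t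
    · right
      rw [mem_iUnion₂] at hxN ⊢
      obtain ⟨t, ht, hxt⟩ := hxN
      exact ⟨ofLex t, ht, hOQ (ofLex t) hxt⟩
    · exact Or.inl ⟨hx, hxN⟩
  · intro r hr
    refine (hO4 r hr).mono (fun _ _ => DD.mono) ?_
    apply diff_subset_diff_right
    apply biUnion_subset_biUnion_left
    intro t ht
    have ht' : ad' r ≤ t := ht
    rw [Prod.Lex.le_iff] at ht'
    rcases ht' with h' | ⟨h', -⟩
    · exact le_of_lt h'
    · exact le_of_eq h'

lemma exists_thresholds (Θ : Type) [LinearOrder Θ] [Countable Θ] :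
    ∃ t t' : Θ → ℝ, (∀ a, 0 < t' a) ∧ (∀ a, t' a < t a) ∧ (∀ a, t a < 1) ∧
      (∀ a c, a < c → t a < t' c) := by
  haveI : Countable (Θ ×ₗ Bool) := inferInstanceAs (Countable (Θ × Bool))
  haveI : Nontrivial (Ioo (0 : ℝ) 1) :=
    ⟨⟨⟨1 / 2, by norm_num, by norm_num⟩, ⟨1 / 3, by norm_num, by norm_num⟩, by
      intro h
      have := congrArg Subtype.val h
      norm_num at this⟩⟩
  obtain ⟨e⟩ := Order.embedding_from_countable_to_dense (Θ ×ₗ Bool) (Ioo (0 : ℝ) 1)
  refine ⟨fun a => (e (toLex (a, true)) : ℝ), fun a => (e (toLex (a, false)) : ℝ), ?_, ?_, ?_, ?_⟩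
  · intro a; exact (e _).2.1
  · intro a
    have : e (toLex (a, false)) < e (toLex (a, true)) := by
      rw [e.lt_iff_lt, Prod.Lex.lt_iff]
      right
      exact ⟨rfl, by simp⟩
    exact_mod_cast this
  · intro a; exact (e _).2.2
  · intro a c hac
    have : e (toLex (a, true)) < e (toLex (c, false)) := by
      rw [e.lt_iff_lt, Prod.Lex.lt_iff]
      left
      exact hac
    exact_mod_cast this

theorem Claim.step {L Y G : Set M} (hL : IsCompact L) (hLn : L.Nonempty) (hY : IsOpen Y)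
    (hYL : Disjoint Y L) (hGo : IsOpen G) (hGL : Disjoint G L) (hG : DD L 1 G) (h : Claim L Y) :
    Claim L (Y ∪ G) := by
  intro Θ _ _ Ω hΩ hnull R ad hRL had had'
  obtain ⟨Q, W, N, hp⟩ := h.pre hL hY Ω hΩ hnull R ad hRL had had'
  obtain ⟨t, t', ht0, htt, ht1, htc⟩ := exists_thresholds Θ
  set Y' := Y ∪ G with hY'
  have hY'o : IsOpen Y' := hY.union hGo
  have hY'L : ∀ x ∈ Y', x ∉ L := by
    rintro x (hx | hx)
    · exact disjoint_left.1 hYL hx
    · exact disjoint_left.1 hGL hx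
  set H : Θ → Set M := fun a => G ∪ ⋃ s ∈ {s : Θ × ℕ | a ≤ s.1}, Q s with hH
  have hHo : ∀ a, IsOpen (H a) := fun a => hGo.union (isOpen_biUnion fun s _ => hp.Qo s)
  set E : Θ → Set M := fun a => Y' \ H a with hE
  set F : Θ → Set M := fun a => Y' \ N a with hF
  have hEo : ∀ a, IsOpen (Y' \ E a) := by
    intro a
    have : Y' \ E a = Y' ∩ H a := by rw [hE]; exact diff_diff_self_inter _ _
    rw [this]
    exact hY'o.inter (hHo a)
  have hFo : ∀ a, IsOpen (Y' \ F a) := by
    intro a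
    have : Y' \ F a = Y' ∩ N a := by rw [hF]; exact diff_diff_self_inter _ _
    rw [this]
    exact hY'o.inter (hp.No a)
  have hEN : ∀ a, E a ⊆ N a := by
    rintro a x ⟨hxY', hxH⟩
    have hxY : x ∈ Y := by
      rcases hxY' with h' | h'
      · exact h'
      · exact absurd (Or.inl h') hxH
    rcases hp.cover a hxY with h' | h'
    · exact h'
    · exact absurd (Or.inr h') hxH
  have hpos : ∀ a, ∀ x ∈ Y', td (E a) x = 0 → td (F a) x = 0 → False := by
    intro a x hx hu hv
    have h1 := closure_inter_subset_of_isOpen_diff (hEo a) hx (td_eq_zero_iff.1 hu)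
    have h2 := closure_inter_subset_of_isOpen_diff (hFo a) hx (td_eq_zero_iff.1 hv)
    exact h2.2 (hEN a h1)
  have hHanti : ∀ a c, a ≤ c → H c ⊆ H a := by
    intro a c hac
    apply union_subset_union_right
    apply biUnion_subset_biUnion_left
    intro s hs
    exact le_trans hac hs
  have hu : ∀ a c, a ≤ c → ∀ x, td (E c) x ≤ td (E a) x := fun a c hac x =>
    td_anti (diff_subset_diff_right (hHanti a c hac)) x
  have hv : ∀ a c, a ≤ c → ∀ x, td (F a) x ≤ td (F c) x := fun a c hac x =>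
    td_anti (diff_subset_diff_right (hp.mono hac)) x
  set Wp : Θ → Set M := fun c => Y' ∩ C1 L (Ω c) ∩ {x | t' c * td (F c) x < td (E c) x} with hWp
  set Wm : Θ → Set M := fun c => Y' ∩ C2 L (Ω c) ∩ {x | t c * td (F c) x ≤ td (E c) x} with hWm
  have hWpo : ∀ c, IsOpen (Wp c) := by
    intro c
    exact (hY'o.inter (isOpen_C1 _ _)).inter
      (isOpen_lt (continuous_const.mul (continuous_td _)) (continuous_td _))
  have hWmp : ∀ c, Wm c ⊆ Wp c := by
    rintro c x ⟨⟨hxY, hxC⟩, hx⟩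
    refine ⟨⟨hxY, C2_subset_C1 hL.isClosed hLn (hY'L x hxY) hxC⟩, ?_⟩
    simp only [mem_ofPred_eq] at hx ⊢
    rcases (td_nonneg (F c) x).eq_or_lt with h0 | h0
    · rw [← h0, mul_zero]
      refine lt_of_le_of_ne (td_nonneg _ _) fun h' => hpos c x hxY h'.symm h0.symm
    · have := mul_lt_mul_of_pos_right (htt c) h0
      linarith
  set O : Θ → Set M := fun a => Wm a \ ⋃ c ∈ Ioi a, Wp c with hO
  have hOC : ∀ a, O a ⊆ Y' ∩ C1 L (Ω a) := fun a x hx => (hWmp a hx.1).1
  have hOo : ∀ a, IsOpen (Y' \ O a) := by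
    intro a
    have : Y' \ O a = (Y' ∩ ((C2 L (Ω a))ᶜ ∪ {x | td (E a) x < t a * td (F a) x}))
        ∪ (Y' ∩ ⋃ c ∈ Ioi a, Wp c) := by
      ext x
      simp only [hO, hWm, mem_sdiff, mem_inter_iff, mem_ofPred_eq, mem_union, mem_compl_iff]
      constructor
      · rintro ⟨hx, h'⟩
        by_cases hc : x ∈ C2 L (Ω a)
        · by_cases hl : t a * td (F a) x ≤ td (E a) x
          · right
            refine ⟨hx, ?_⟩
            by_contra hnot
            exact h' ⟨⟨⟨hx, hc⟩, hl⟩, hnot⟩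
          · left
            exact ⟨hx, Or.inr (not_le.1 hl)⟩
        · left
          exact ⟨hx, Or.inl hc⟩
      · rintro (⟨hx, hc | hl⟩ | ⟨hx, hw⟩)
        · exact ⟨hx, fun h' => hc h'.1.1.2⟩
        · exact ⟨hx, fun h' => absurd h'.1.2 (not_le.2 hl)⟩
        · exact ⟨hx, fun h' => h'.2 hw⟩
    rw [this]
    refine (hY'o.inter ((isClosed_C2 _ _).isOpen_compl.union ?_)).union
      (hY'o.inter (isOpen_biUnion fun c _ => hWpo c))
    exact isOpen_lt (continuous_td _) (continuous_const.mul (continuous_td _))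
  refine ⟨O, hOC, ?_, ?_, ?_⟩
  · -- disjointness
    have key : ∀ a b, a < b → Disjoint (O a) (O b) := by
      intro a b hab
      rw [disjoint_left]
      intro x hxa hxb
      exact hxa.2 (mem_biUnion (show b ∈ Ioi a from hab) (hWmp b hxb.1))
    intro a b hab
    rcases lt_or_gt_of_ne hab with h' | h'
    · exact key a b h'
    · exact (key b a h').symm
  · intro B
    refine isOpen_diff_biUnion hY'o O hOo ?_ B
    intro x hx
    have hxL : infEDist x L ≠ 0 := fun h' =>
      hY'L x hx ((mem_iff_infEDist_zero_of_closed hL.isClosed).2 h')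
    obtain ⟨η, hη0, hη⟩ := ENNReal.lt_iff_exists_nnreal_btwn.1 (pos_iff_ne_zero.2 hxL)
    refine ⟨{y | (η : ENNReal) < infEDist y L}, (isOpen_lt continuous_const
      continuous_infEDist).mem_nhds hη, ?_⟩
    have hηpos : (0 : ℝ) < (η : ℝ) := by exact_mod_cast hη0
    refine (hnull η hηpos).subset ?_
    rintro i ⟨y, hyO, hyη⟩
    refine big_of_mem_C1 (L := L) (hΩ i) (x := y) ?_ (hOC i hyO).2
    rw [ENNReal.ofReal_coe_nnreal]
    exact le_of_lt hyη
  · -- the key property
    intro r hr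
    set a := ad r with ha
    obtain ⟨ρ, hρ, hball⟩ := exists_ball_subset_C2 (hΩ a) (hRL hr) (had r hr)
    refine PAt.of_local (fun _ _ => DD.mono) hρ ?_
    set A₁ : Set M := Y' ∩ {x | td (E a) x < t a * td (F a) x} with hA₁
    set A₂ : Set M := ⋃ c ∈ Ioi a, Wp c with hA₂
    have hA₁o : IsOpen A₁ :=
      hY'o.inter (isOpen_lt (continuous_td _) (continuous_const.mul (continuous_td _)))
    have hA₂o : IsOpen A₂ := isOpen_biUnion fun c _ => hWpo c
    have hdisj : Disjoint A₁ A₂ := by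
      rw [disjoint_left]
      rintro x ⟨hxY, hx1⟩ hx2
      rw [hA₂, mem_iUnion₂] at hx2
      obtain ⟨c, hc, ⟨-, hxc⟩⟩ := hx2
      simp only [mem_ofPred_eq] at hx1 hxc
      have hc' : a < c := hc
      have h1 := hu a c hc'.le x
      have h2 := hv a c hc'.le x
      have h3 := htc a c hc'
      have h4 := td_nonneg (F a) x
      have h5 : t a * td (F a) x ≤ t' c * td (F c) x := by
        apply mul_le_mul h3.le h2 h4 (ht0 c).le
      linarith
    have hsub : (Y' \ ⋃ b ∈ Ici a, O b) ∩ ball r ρ ⊆ A₁ ∪ A₂ := by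
      rintro x ⟨⟨hxY, hx⟩, hxb⟩
      by_cases hx2 : x ∈ A₂
      · exact Or.inr hx2
      · left
        refine ⟨hxY, ?_⟩
        simp only [mem_ofPred_eq]
        by_contra hnot
        push Not at hnot
        apply hx
        refine mem_biUnion (show a ∈ Ici a from le_refl a) ?_
        exact ⟨⟨⟨hxY, hball hxb⟩, hnot⟩, hx2⟩
    refine PAt.mono (fun _ _ => DD.mono) hsub ?_
    refine PAt.union_of_open (fun _ _ _ _ a b c d e f g => DD.union_of_open a b c d e f g)
      hA₁o hA₂o hdisj subset_rfl subset_rfl ?_ ?_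
    · refine (hp.P r hr).mono (fun _ _ => DD.mono) ?_
      rintro x ⟨hxY, hx⟩
      by_contra hxN
      simp only [mem_ofPred_eq] at hx
      have hxF : x ∈ F a := ⟨hxY, hxN⟩
      have : td (F a) x = 0 := td_eq_zero_iff.2 (subset_closure hxF)
      rw [this, mul_zero] at hx
      exact absurd hx (not_lt.2 (td_nonneg _ _))
    · have hcells : PAt (DD L 1) (G ∪ ⋃ i : {s : Θ × ℕ // a < s.1}, Q i.1) r := by
        refine PAt_cells hG (fun i : {s : Θ × ℕ // a < s.1} => Q i.1) (fun i => W i.1)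
          (fun i => hp.Qo _) ?_ (fun i => hp.QW _) ?_ ?_
        · intro i j hij
          exact hp.Qd _ _ fun h' => hij (Subtype.ext h')
        · intro ε hε
          show (Subtype.val ⁻¹' {s : Θ × ℕ | Big ε (W s)} : Set {s : Θ × ℕ // a < s.1}).Finite
          exact Set.Finite.preimage (Subtype.val_injective.injOn) (hp.null ε hε)
        · intro i hi
          exact had' r hr _ i.2 (hp.Wc _ hi)
      refine hcells.mono (fun _ _ => DD.mono) ?_
      intro x hx
      rw [hA₂, mem_iUnion₂] at hx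
      obtain ⟨c, hc, ⟨⟨hxY, -⟩, hxc⟩⟩ := hx
      simp only [mem_ofPred_eq] at hxc
      have hc' : a < c := hc
      have hxE : x ∉ E c := by
        intro hxE
        have : td (E c) x = 0 := td_eq_zero_iff.2 (subset_closure hxE)
        rw [this] at hxc
        have := mul_nonneg (ht0 c).le (td_nonneg (F c) x)
        linarith
      have hxH : x ∈ H c := by
        by_contra hnot
        exact hxE ⟨hxY, hnot⟩
      rcases hxH with h' | h'
      · exact Or.inl h'
      · right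
        rw [mem_iUnion₂] at h'
        obtain ⟨s, hs, hxs⟩ := h'
        rw [mem_iUnion]
        exact ⟨⟨s, lt_of_lt_of_le hc' hs⟩, hxs⟩

theorem Claim.final {L Y G : Set M} (hL : IsCompact L) (hLn : L.Nonempty) (hY : IsOpen Y)
    (hYL : Disjoint Y L) (hGo : IsOpen G) (hGL : Disjoint G L) (hG : DD L 1 G) (h : Claim L Y) :
    DD L 3 (Y ∪ G) := by
  intro q hq ε hε
  obtain ⟨Q, W, N, hp⟩ := h.pre hL hY (Θ := Unit) (fun _ => ball q ε) (fun _ => isOpen_ball)
    (fun ε _ => Set.toFinite _) (L ∩ ball q ε) (fun _ => ()) inter_subset_left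
    (fun r hr => hr.2) (fun r hr b hb => absurd hb (by simp))
  set X := Y ∪ G with hX
  have hXo : IsOpen X := hY.union hGo
  have hXL : ∀ x ∈ X, x ∉ L := by
    rintro x (hx | hx)
    · exact disjoint_left.1 hYL hx
    · exact disjoint_left.1 hGL hx
  set H : Set M := G ∪ ⋃ s, Q s with hH
  have hHo : IsOpen H := hGo.union (isOpen_iUnion fun s => hp.Qo s)
  set E : Set M := X \ H with hE
  set F : Set M := X \ N () with hF
  have hEo : IsOpen (X \ E) := by
    have : X \ E = X ∩ H := by rw [hE]; exact diff_diff_self_inter _ _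
    rw [this]
    exact hXo.inter hHo
  have hFo : IsOpen (X \ F) := by
    have : X \ F = X ∩ N () := by rw [hF]; exact diff_diff_self_inter _ _
    rw [this]
    exact hXo.inter (hp.No ())
  have hEN : E ⊆ N () := by
    rintro x ⟨hxY', hxH⟩
    have hxY : x ∈ Y := by
      rcases hxY' with h' | h'
      · exact h'
      · exact absurd (Or.inl h') hxH
    rcases hp.cover () hxY with h' | h'
    · exact h'
    · exfalso
      apply hxH
      right
      rw [mem_iUnion₂] at h'
      obtain ⟨s, -, hs⟩ := h'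
      exact mem_iUnion.2 ⟨s, hs⟩
  have hpos : ∀ x ∈ X, td E x = 0 → td F x = 0 → False := by
    intro x hx hu hv
    have h1 := closure_inter_subset_of_isOpen_diff hEo hx (td_eq_zero_iff.1 hu)
    have h2 := closure_inter_subset_of_isOpen_diff hFo hx (td_eq_zero_iff.1 hv)
    exact h2.2 (hEN h1)
  set P₁ : Set M := X ∩ C2 L (ball q ε) ∩ {x | td F x ≤ td E x} with hP₁
  set P : Set M := P₁ ∪ (X ∩ closedBall q (ε / 2)) with hP
  have hPo : IsOpen (X \ P) := by
    have : X \ P = X ∩ ((C2 L (ball q ε))ᶜ ∪ {x | td E x < td F x}) ∩ (closedBall q (ε / 2))ᶜ := by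
      ext x
      simp only [hP, hP₁, mem_sdiff, mem_union, mem_inter_iff, mem_ofPred_eq, mem_compl_iff, not_or,
        not_and, not_le]
      constructor
      · rintro ⟨hx, h1, h2⟩
        refine ⟨⟨hx, ?_⟩, h2 hx⟩
        by_cases hc : x ∈ C2 L (ball q ε)
        · exact Or.inr (h1 ⟨hx, hc⟩)
        · exact Or.inl hc
      · rintro ⟨⟨hx, h1⟩, h2⟩
        refine ⟨hx, fun h' => ?_, fun _ => h2⟩
        rcases h1 with h1 | h1
        · exact absurd h'.2 h1
        · exact h1
    rw [this]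
    exact (hXo.inter ((isClosed_C2 _ _).isOpen_compl.union
      (isOpen_lt (continuous_td _) (continuous_td _)))).inter isClosed_closedBall.isOpen_compl
  refine ⟨ε / 2, by positivity, interior P, X \ P, isOpen_interior, hPo, ?_, ?_, ?_, ?_⟩
  · rw [disjoint_left]
    rintro x ⟨-, hx⟩ ⟨-, hx'⟩
    exact hx' (interior_subset hx)
  · have : X ∩ ball q (ε / 2) ⊆ P := fun x hx => Or.inr ⟨hx.1, ball_subset_closedBall hx.2⟩
    exact interior_maximal this (hXo.inter isOpen_ball)
  · rintro x ⟨hx, hxb⟩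
    refine ⟨hx, ?_⟩
    rintro (⟨⟨-, hxC⟩, -⟩ | ⟨-, hxc⟩)
    · exact hxb (C1_subset isOpen_ball (C2_subset_C1 hL.isClosed hLn (hXL x hx) hxC))
    · rw [mem_closedBall] at hxc
      rw [mem_ball, not_lt] at hxb
      linarith
  · -- the partition is in `D_1`
    intro r hr
    by_cases hrb : r ∈ ball q ε
    · obtain ⟨ρ, hρ, hball⟩ := exists_ball_subset_C2 (isOpen_ball (x := q) (ε := ε)) hr hrb
      refine PAt.of_local (fun _ _ => DD.mono) hρ ?_
      refine (hp.P r ⟨hr, hrb⟩).mono (fun _ _ => DD.mono) ?_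
      rintro x ⟨⟨hxX, hx⟩, hxb⟩
      have hxint : x ∉ interior P := fun h' => hx (Or.inl h')
      have hle : td E x ≤ td F x := by
        by_contra hlt
        push Not at hlt
        apply hxint
        have hsub : X ∩ ball r ρ ∩ {x | td F x < td E x} ⊆ P := by
          rintro y ⟨⟨hyX, hyb⟩, hy⟩
          simp only [mem_ofPred_eq] at hy
          exact Or.inl ⟨⟨hyX, hball hyb⟩, hy.le⟩
        exact interior_maximal hsub ((hXo.inter isOpen_ball).inter
          (isOpen_lt (continuous_td _) (continuous_td _))) ⟨⟨hxX, hxb⟩, hlt⟩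
      by_contra hxN
      have hxF : x ∈ F := ⟨hxX, hxN⟩
      have h0 : td F x = 0 := td_eq_zero_iff.2 (subset_closure hxF)
      have h1 : td E x = 0 := le_antisymm (h0 ▸ hle) (td_nonneg _ _)
      exact hpos x hxX h1 h0
    · refine PAt.of_local (fun _ _ => DD.mono) (show 0 < ε / 2 by positivity) ?_
      have hcells : PAt (DD L 1) (G ∪ ⋃ s, Q s) r := by
        refine PAt_cells hG Q W hp.Qo hp.Qd hp.QW hp.null ?_
        intro s hs
        exact hrb (hp.Wc _ hs)
      refine hcells.mono (fun _ _ => DD.mono) ?_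
      rintro x ⟨⟨hxX, hx⟩, hxb⟩
      have hxP : x ∈ P := by
        by_contra hnot
        exact hx (Or.inr ⟨hxX, hnot⟩)
      rcases hxP with hxP | ⟨-, hxc⟩
      · have hle : td F x ≤ td E x := hxP.2
        by_contra hxH
        have hxE : x ∈ E := ⟨hxX, hxH⟩
        have h0 : td E x = 0 := td_eq_zero_iff.2 (subset_closure hxE)
        have h1 : td F x = 0 := le_antisymm (h0 ▸ hle) (td_nonneg _ _)
        exact hpos x hxX h0 h1
      · exfalso
        rw [mem_closedBall] at hxc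
        rw [mem_ball] at hxb
        rw [mem_ball, not_lt] at hrb
        have := dist_triangle r x q
        rw [dist_comm r x] at this
        linarith

/-- `Y` is a finite union of open `D_0` sets. -/
inductive Cov (L : Set M) : Set M → Prop
  | empty : Cov L ∅
  | union {Y G : Set M} : Cov L Y → IsOpen G → Disjoint G L → DD L 1 G → Cov L (Y ∪ G)

lemma Cov.isOpen {L Y : Set M} (h : Cov L Y) : IsOpen Y := by
  induction h with
  | empty => exact isOpen_empty
  | union _ hG _ _ ih => exact ih.union hG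

lemma Cov.disjoint {L Y : Set M} (h : Cov L Y) : Disjoint Y L := by
  induction h with
  | empty => exact empty_disjoint _
  | union _ _ hG _ ih => exact ih.union_left hG

lemma Cov.claim {L Y : Set M} (hL : IsCompact L) (hLn : L.Nonempty) (h : Cov L Y) :
    Claim L Y := by
  induction h with
  | empty => exact Claim.empty L
  | union hY hG hGL hG0 ih => exact ih.step hL hLn hY.isOpen hY.disjoint hG hGL hG0

/-- **Main theorem of the upper bound**: a finite union of open `D_0`-sets is a `D_2`-set. -/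
theorem Cov.DD3 {L X : Set M} (hL : IsCompact L) (h : Cov L X) : DD L 3 X := by
  rcases L.eq_empty_or_nonempty with hL0 | hLn
  · intro r hr
    rw [hL0] at hr
    exact absurd hr (by simp)
  · cases h with
    | empty => exact DD_empty 3
    | union hY hG hGL hG0 =>
      exact (hY.claim hL hLn).final hL hLn hY.isOpen hY.disjoint hG hGL hG0

end CmpZ
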