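import Mathlib

/-!
Partition degrees of subsets of `M \ L` near the points of `L` (auxiliary notions, not used in the
statement of the final result).
-/

open Set Metric Topology

namespace CmpZ

variable {M : Type*} [MetricSpace M]

/-- `S` has arbitrarily small partitions around `r` lying in the class `D`. -/
def PAt (D : Set M → Prop) (S : Set M) (r : M) : Prop :=
  ∀ ε > 0, ∃ δ > 0, ∃ U V : Set M, IsOpen U ∧ IsOpen V ∧ Disjoint (S ∩ U) V ∧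
    S ∩ ball r δ ⊆ U ∧ S \ ball r ε ⊆ V ∧ D (S \ (U ∪ V))

/-- The classes `D_{k-1}`. -/
def DD (L : Set M) : ℕ → Set M → Prop
  | 0, S => S = ∅
  | k + 1, S => ∀ r ∈ L, PAt (DD L k) S r

lemma DD_succ {L : Set M} {k : ℕ} {S : Set M} : DD L (k + 1) S ↔ ∀ r ∈ L, PAt (DD L k) S r :=
  Iff.rfl

lemma PAt.mono {D : Set M → Prop} (hD : ∀ S T : Set M, S ⊆ T → D T → D S) {S T : Set M}
    (hST : S ⊆ T) {r : M} (h : PAt D T r) : PAt D S r := by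
  intro ε hε
  obtain ⟨δ, hδ, U, V, hU, hV, hUV, h1, h2, h3⟩ := h ε hε
  refine ⟨δ, hδ, U, V, hU, hV, ?_, ?_, ?_, ?_⟩
  · exact hUV.mono_left (inter_subset_inter_left _ hST)
  · exact (inter_subset_inter_left _ hST).trans h1
  · exact (diff_subset_diff_left hST).trans h2
  · exact hD _ _ (diff_subset_diff_left hST) h3

lemma DD.mono {L : Set M} : ∀ {k : ℕ} {S T : Set M}, S ⊆ T → DD L k T → DD L k S
  | 0, S, T, h, hT => by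
    have hT' : T = ∅ := hT
    exact subset_empty_iff.1 (hT' ▸ h)
  | k + 1, S, T, h, hT => fun r hr => (hT r hr).mono (fun _ _ h' => DD.mono h') h

lemma DD_empty {L : Set M} : ∀ k : ℕ, DD L k ∅
  | 0 => rfl
  | k + 1 => fun r hr ε hε => ⟨1, one_pos, ∅, ∅, isOpen_empty, isOpen_empty, by simp, by simp,
      by simp, by simpa using DD_empty k⟩

lemma PAt_empty {D : Set M → Prop} (hD : D ∅) (r : M) : PAt D (∅ : Set M) r :=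
  fun ε hε => ⟨1, one_pos, ∅, ∅, isOpen_empty, isOpen_empty, by simp, by simp,
      by simp, by simpa using hD⟩

/-- The property is local at `r`. -/
lemma PAt.of_local {D : Set M → Prop} (hD : ∀ S T : Set M, S ⊆ T → D T → D S) {S : Set M} {r : M}
    {ρ : ℝ} (hρ : 0 < ρ) (h : PAt D (S ∩ ball r ρ) r) : PAt D S r := by
  intro ε hε
  obtain ⟨δ, hδ, U, V, hU, hV, hUV, h1, h2, h3⟩ := h (min ε ρ / 3) (by positivity)
  refine ⟨min δ ρ, by positivity, U ∩ ball r ρ, (V ∩ ball r ρ) ∪ (closedBall r (min ε ρ / 2))ᶜ,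
    hU.inter isOpen_ball, (hV.inter isOpen_ball).union isClosed_closedBall.isOpen_compl, ?_, ?_, ?_, ?_⟩
  · rw [disjoint_left] at hUV ⊢
    rintro x ⟨hxS, hxU, hxρ⟩ (⟨hxV, -⟩ | hx)
    · exact hUV ⟨⟨hxS, hxρ⟩, hxU⟩ hxV
    · refine hUV ⟨⟨hxS, hxρ⟩, hxU⟩ (h2 ⟨⟨hxS, hxρ⟩, ?_⟩)
      simp only [mem_compl_iff, mem_closedBall, not_le, mem_ball, not_lt] at hx ⊢
      have : 0 < min ε ρ := by positivity
      linarith
  · rintro x ⟨hxS, hx⟩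
    rw [mem_ball, lt_min_iff] at hx
    exact ⟨h1 ⟨⟨hxS, hx.2⟩, hx.1⟩, hx.2⟩
  · rintro x ⟨hxS, hx⟩
    right
    simp only [mem_compl_iff, mem_closedBall, not_le, mem_ball, not_lt] at hx ⊢
    have : min ε ρ ≤ ε := min_le_left _ _
    have : 0 < min ε ρ := by positivity
    linarith
  · refine hD _ _ ?_ h3
    rintro x ⟨hxS, hx⟩
    simp only [mem_union, mem_inter_iff, mem_compl_iff, mem_closedBall, not_or, not_and, not_not,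
      not_le] at hx
    have hxb : x ∈ ball r ρ := by
      rw [mem_ball]
      have : min ε ρ ≤ ρ := min_le_right _ _
      have : 0 < min ε ρ := by positivity
      linarith [hx.2.2]
    refine ⟨⟨hxS, hxb⟩, ?_⟩
    rintro (h | h)
    · exact hx.1 h hxb
    · exact hx.2.1 h hxb

lemma PAt.union_of_open {D : Set M → Prop}
    (hD : ∀ A₁ A₂ S₁ S₂ : Set M, IsOpen A₁ → IsOpen A₂ → Disjoint A₁ A₂ → S₁ ⊆ A₁ → S₂ ⊆ A₂ →
      D S₁ → D S₂ → D (S₁ ∪ S₂))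
    {A₁ A₂ S₁ S₂ : Set M} (hA₁ : IsOpen A₁) (hA₂ : IsOpen A₂) (hA : Disjoint A₁ A₂)
    (h₁ : S₁ ⊆ A₁) (h₂ : S₂ ⊆ A₂) {r : M} (hS₁ : PAt D S₁ r) (hS₂ : PAt D S₂ r) :
    PAt D (S₁ ∪ S₂) r := by
  intro ε hε
  obtain ⟨δ₁, hδ₁, U₁, V₁, hU₁, hV₁, hUV₁, a₁, b₁, c₁⟩ := hS₁ ε hε
  obtain ⟨δ₂, hδ₂, U₂, V₂, hU₂, hV₂, hUV₂, a₂, b₂, c₂⟩ := hS₂ ε hε
  rw [disjoint_left] at hA hUV₁ hUV₂
  refine ⟨min δ₁ δ₂, lt_min hδ₁ hδ₂, (U₁ ∩ A₁) ∪ (U₂ ∩ A₂), (V₁ ∩ A₁) ∪ (V₂ ∩ A₂),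
    (hU₁.inter hA₁).union (hU₂.inter hA₂), (hV₁.inter hA₁).union (hV₂.inter hA₂), ?_, ?_, ?_, ?_⟩
  · rw [disjoint_left]
    rintro x ⟨hxS, (⟨hxU, hxA⟩ | ⟨hxU, hxA⟩)⟩ (⟨hxV, hxA'⟩ | ⟨hxV, hxA'⟩)
    · rcases hxS with hxS | hxS
      · exact hUV₁ ⟨hxS, hxU⟩ hxV
      · exact hA hxA (h₂ hxS)
    · exact hA hxA hxA'
    · exact hA hxA' hxA
    · rcases hxS with hxS | hxS
      · exact hA (h₁ hxS) hxA
      · exact hUV₂ ⟨hxS, hxU⟩ hxV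
  · rintro x ⟨hxS, hx⟩
    rw [mem_ball, lt_min_iff] at hx
    rcases hxS with hxS | hxS
    · exact Or.inl ⟨a₁ ⟨hxS, hx.1⟩, h₁ hxS⟩
    · exact Or.inr ⟨a₂ ⟨hxS, hx.2⟩, h₂ hxS⟩
  · rintro x ⟨hxS, hx⟩
    rcases hxS with hxS | hxS
    · exact Or.inl ⟨b₁ ⟨hxS, hx⟩, h₁ hxS⟩
    · exact Or.inr ⟨b₂ ⟨hxS, hx⟩, h₂ hxS⟩
  · have : (S₁ ∪ S₂) \ ((U₁ ∩ A₁) ∪ (U₂ ∩ A₂) ∪ ((V₁ ∩ A₁) ∪ (V₂ ∩ A₂)))
        = (S₁ \ (U₁ ∪ V₁)) ∪ (S₂ \ (U₂ ∪ V₂)) := by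
      ext x
      simp only [mem_diff, mem_union, mem_inter_iff]
      constructor
      · rintro ⟨hxS | hxS, hx⟩
        · left
          refine ⟨hxS, ?_⟩
          have := h₁ hxS
          tauto
        · right
          refine ⟨hxS, ?_⟩
          have := h₂ hxS
          tauto
      · rintro (⟨hxS, hx⟩ | ⟨hxS, hx⟩)
        · have h1 := h₁ hxS
          have h2 : x ∉ A₂ := hA h1
          tauto
        · have h2 := h₂ hxS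
          have h1 : x ∉ A₁ := fun h => hA h h2
          tauto
    rw [this]
    exact hD A₁ A₂ _ _ hA₁ hA₂ (disjoint_left.2 hA) (diff_subset.trans h₁) (diff_subset.trans h₂)
      c₁ c₂

lemma DD.union_of_open {L : Set M} : ∀ {k : ℕ} {A₁ A₂ S₁ S₂ : Set M}, IsOpen A₁ → IsOpen A₂ →
    Disjoint A₁ A₂ → S₁ ⊆ A₁ → S₂ ⊆ A₂ → DD L k S₁ → DD L k S₂ → DD L k (S₁ ∪ S₂)
  | 0, A₁, A₂, S₁, S₂, _, _, _, _, _, h₁, h₂ => by
    have h₁' : S₁ = ∅ := h₁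
    have h₂' : S₂ = ∅ := h₂
    show S₁ ∪ S₂ = ∅
    rw [h₁', h₂', empty_union]
  | k + 1, A₁, A₂, S₁, S₂, hA₁, hA₂, hA, h₁, h₂, hS₁, hS₂ => fun r hr =>
    PAt.union_of_open (fun _ _ _ _ a b c d e f g => DD.union_of_open a b c d e f g) hA₁ hA₂ hA h₁ h₂
      (hS₁ r hr) (hS₂ r hr)

end CmpZ
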