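import Pool.Agent.Lib_helper71.Cmp.Tools
import Pool.Agent.Lib_helper71.Cmp.Defs

open Set Metric Topology

namespace CmpZ

variable {M : Type*} [MetricSpace M]

/-- Reduction from partition degrees to the compactness degree. -/
theorem cmpLE_of_DD {C E L : Set M} (hC : IsCompact C) (hL : closure E \ E = L) :
    ∀ (k : ℕ) (Sh : Set M), IsClosed Sh → Sh ⊆ C → DD L k (Sh ∩ E) →
    ∀ (X : Type) [TopologicalSpace X] (f : X → M), IsEmbedding f → range f = Sh \ E →
    CmpLE k X := by
  intro k
  induction k with
  | zero =>
    intro Sh hSh hShC hD X _ f hf hr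
    have h0 : Sh ∩ E = ∅ := hD
    have h1 : Sh \ E = Sh := by
      ext x
      refine ⟨fun h => h.1, fun h => ⟨h, fun hE => ?_⟩⟩
      have : x ∈ Sh ∩ E := ⟨h, hE⟩
      rw [h0] at this
      exact this
    have h2 : IsCompact (Sh : Set M) := hC.of_isClosed_subset hSh hShC
    show CompactSpace X
    rw [← isCompact_univ_iff, hf.isCompact_iff, image_univ, hr, h1]
    exact h2
  | succ k ih =>
    intro Sh hSh hShC hD X _ f hf hr
    intro p G hG hpG
    -- a general construction of partitions
    have key : ∀ α β : M → ENNReal, Continuous α → Continuous β → α (f p) < β (f p) →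
        (∀ x ∈ G, β (f x) < α (f x)) → DD L k ((Sh ∩ {z | α z = β z}) ∩ E) →
        ∃ S : Set X, IsPartition p G S ∧ CmpLE k S := by
      intro α β hα hβ hp hG' hDk
      refine ⟨{x | α (f x) = β (f x)}, ⟨?_, {x | α (f x) < β (f x)}, {x | β (f x) < α (f x)},
        ?_, ?_, ?_, ?_, hp, hG'⟩, ?_⟩
      · exact isClosed_eq (hα.comp hf.continuous) (hβ.comp hf.continuous)
      · exact isOpen_lt (hα.comp hf.continuous) (hβ.comp hf.continuous)
      · exact isOpen_lt (hβ.comp hf.continuous) (hα.comp hf.continuous)
      · rw [disjoint_left]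
        intro x hx hx'
        simp only [mem_ofPred_eq] at hx hx'
        exact lt_asymm hx hx'
      · ext x
        simp only [mem_compl_iff, mem_ofPred_eq, mem_union]
        exact ne_iff_lt_or_gt
      · refine ih (Sh ∩ {z | α z = β z}) (hSh.inter (isClosed_eq hα hβ))
          (inter_subset_left.trans hShC) hDk _ (f ∘ Subtype.val)
          (hf.comp IsEmbedding.subtypeVal) ?_
        ext z
        simp only [mem_range, Function.comp, Subtype.exists, mem_ofPred_eq, mem_sdiff,
          mem_inter_iff]
        constructor
        · rintro ⟨x, hx, rfl⟩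
          have : f x ∈ Sh \ E := hr ▸ mem_range_self x
          exact ⟨⟨this.1, hx⟩, this.2⟩
        · rintro ⟨⟨hz1, hz2⟩, hz3⟩
          have : z ∈ range f := by rw [hr]; exact ⟨hz1, hz3⟩
          obtain ⟨x, rfl⟩ := this
          exact ⟨x, hz2, rfl⟩
    have hfp : f p ∈ Sh \ E := hr ▸ mem_range_self p
    -- a ball around `f p` missing `G`
    obtain ⟨G', hG'c, hG'⟩ := hf.isClosed_iff.1 hG
    have hpG' : f p ∈ G'ᶜ := by
      intro h
      apply hpG
      rw [← hG']
      exact h
    obtain ⟨ε, hε, hball⟩ := Metric.isOpen_iff.1 hG'c.isOpen_compl _ hpG'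
    have hGball : ∀ x ∈ G, f x ∉ ball (f p) ε := by
      intro x hx hb
      apply hball hb
      rw [← hG'] at hx
      exact hx
    by_cases hcl : f p ∈ closure E
    · have hpL : f p ∈ L := hL ▸ ⟨hcl, hfp.2⟩
      obtain ⟨δ, hδ, U, V, hU, hV, hUV, h1, h2, h3⟩ := hD (f p) hpL (ε / 2) (by positivity)
      rw [disjoint_left] at hUV
      set A' : Set M := closure ((Sh ∩ E) \ V) ∪ {f p} with hA'
      set B' : Set M := closure ((Sh ∩ E) \ U) ∪ (Sh \ ball (f p) ε) with hB'
      have hA'c : IsClosed A' := isClosed_closure.union isClosed_singleton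
      have hB'c : IsClosed B' := by
        refine isClosed_closure.union (hSh.sdiff isOpen_ball)
      refine key (fun z => infEDist z A') (fun z => infEDist z B') continuous_infEDist
        continuous_infEDist ?_ ?_ ?_
      · have hA0 : infEDist (f p) A' = 0 := infEDist_zero_of_mem (Or.inr rfl)
        show infEDist (f p) A' < infEDist (f p) B'
        rw [hA0, pos_iff_ne_zero]
        intro h0
        rw [← mem_iff_infEDist_zero_of_closed hB'c] at h0
        rcases h0 with h0 | h0
        · rw [_root_.mem_closure_iff] at h0
          obtain ⟨y, hyb, hyS, hyU⟩ := h0 (ball (f p) δ) isOpen_ball (mem_ball_self hδ)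
          exact hyU (h1 ⟨hyS, hyb⟩)
        · exact h0.2 (mem_ball_self hε)
      · intro x hx
        have hxb := hGball x hx
        have hxS : f x ∈ Sh \ E := hr ▸ mem_range_self x
        have hB0 : infEDist (f x) B' = 0 := infEDist_zero_of_mem (Or.inr ⟨hxS.1, hxb⟩)
        show infEDist (f x) B' < infEDist (f x) A'
        rw [hB0, pos_iff_ne_zero]
        intro h0
        rw [← mem_iff_infEDist_zero_of_closed hA'c] at h0
        rcases h0 with h0 | h0
        · rw [_root_.mem_closure_iff] at h0
          have hx' : f x ∈ (closedBall (f p) (ε / 2))ᶜ := by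
            rw [mem_compl_iff, mem_closedBall, not_le]
            rw [mem_ball, not_lt] at hxb
            linarith
          obtain ⟨y, hyb, hyS, hyV⟩ := h0 _ isClosed_closedBall.isOpen_compl hx'
          exact hyV (h2 ⟨hyS, fun h => hyb (ball_subset_closedBall h)⟩)
        · have h0' : f x = f p := h0
          rw [h0'] at hxb
          exact hxb (mem_ball_self hε)
      · refine DD.mono ?_ h3
        rintro z ⟨⟨hzS, hz⟩, hzE⟩
        have hz' : infEDist z A' = infEDist z B' := hz
        refine ⟨⟨hzS, hzE⟩, ?_⟩
        rintro (hzU | hzV)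
        · have hzV : z ∉ V := hUV ⟨⟨hzS, hzE⟩, hzU⟩
          have hA0 : infEDist z A' = 0 :=
            infEDist_zero_of_mem (Or.inl (subset_closure ⟨⟨hzS, hzE⟩, hzV⟩))
          rw [hA0] at hz'
          have := (mem_iff_infEDist_zero_of_closed hB'c).2 hz'.symm
          rcases this with h0 | h0
          · rw [_root_.mem_closure_iff] at h0
            obtain ⟨y, hyU, hyS, hyU'⟩ := h0 U hU hzU
            exact hyU' hyU
          · apply hzV
            apply h2
            refine ⟨⟨hzS, hzE⟩, fun h => h0.2 ?_⟩
            exact ball_subset_ball (by linarith) h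
        · have hzU : z ∉ U := fun h => hUV ⟨⟨hzS, hzE⟩, h⟩ hzV
          have hB0 : infEDist z B' = 0 :=
            infEDist_zero_of_mem (Or.inl (subset_closure ⟨⟨hzS, hzE⟩, hzU⟩))
          rw [hB0] at hz'
          have := (mem_iff_infEDist_zero_of_closed hA'c).2 hz'
          rcases this with h0 | h0
          · rw [_root_.mem_closure_iff] at h0
            obtain ⟨y, hyV, hyS, hyV'⟩ := h0 V hV hzV
            exact hyV' hyV
          · have h0' : z = f p := h0
            rw [h0'] at hzE
            exact hfp.2 hzE
    · -- `f p` is away from `E`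
      have h1 : (closure E)ᶜ ∈ 𝓝 (f p) := isClosed_closure.isOpen_compl.mem_nhds hcl
      obtain ⟨η, hη, hb⟩ := Metric.mem_nhds_iff.1 h1
      set κ := min ε η / 2 with hκ
      have hκpos : 0 < κ := by positivity
      refine key (fun z => edist z (f p)) (fun _ => ENNReal.ofReal κ)
        (continuous_id.edist continuous_const) continuous_const ?_ ?_ ?_
      · simp only [edist_self]
        exact ENNReal.ofReal_pos.2 hκpos
      · intro x hx
        have hxb := hGball x hx
        rw [mem_ball, not_lt] at hxb
        show ENNReal.ofReal κ < edist (f x) (f p)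
        rw [edist_dist, ENNReal.ofReal_lt_ofReal_iff (by linarith)]
        have : min ε η ≤ ε := min_le_left _ _
        have : 0 < min ε η := by positivity
        linarith
      · have : (Sh ∩ {z | edist z (f p) = ENNReal.ofReal κ}) ∩ E = ∅ := by
          rw [eq_empty_iff_forall_notMem]
          rintro z ⟨⟨-, hz⟩, hzE⟩
          have hz' : edist z (f p) = ENNReal.ofReal κ := hz
          rw [edist_dist] at hz'
          have hz2 : dist z (f p) = κ := by
            have := congrArg ENNReal.toReal hz'
            rwa [ENNReal.toReal_ofReal dist_nonneg, ENNReal.toReal_ofReal hκpos.le] at this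
          have : z ∈ ball (f p) η := by
            rw [mem_ball, hz2]
            have : min ε η ≤ η := min_le_right _ _
            have : 0 < min ε η := by positivity
            linarith
          exact hb this (subset_closure hzE)
        rw [this]
        exact DD_empty k

end CmpZ
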