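import Pool.Agent.Lib_helper71.Cmp.Part

open Set Metric Topology

namespace CmpZ

variable {M : Type*} [MetricSpace M]

/-- Distance to a set, truncated at `1` (it equals `1` for the empty set). -/
noncomputable def td (S : Set M) (x : M) : ℝ := (min (infEDist x S) 1).toReal

lemma td_nonneg (S : Set M) (x : M) : 0 ≤ td S x := ENNReal.toReal_nonneg

lemma min_ne_top (S : Set M) (x : M) : min (infEDist x S) 1 ≠ ⊤ :=
  ne_top_of_le_ne_top ENNReal.one_ne_top (min_le_right _ _)

lemma continuous_td (S : Set M) : Continuous (td S) := by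
  unfold td
  rw [continuous_iff_continuousAt]
  intro x
  exact (ENNReal.tendsto_toReal (min_ne_top S x)).comp
    ((continuous_infEDist.min continuous_const).continuousAt)

lemma td_anti {S T : Set M} (h : S ⊆ T) (x : M) : td T x ≤ td S x :=
  ENNReal.toReal_mono (min_ne_top S x) (min_le_min_right _ (infEDist_anti h))

lemma td_eq_zero_iff {S : Set M} {x : M} : td S x = 0 ↔ x ∈ closure S := by
  unfold td
  rw [ENNReal.toReal_eq_zero_iff, mem_closure_iff_infEDist_zero]
  constructor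
  · rintro (h | h)
    · rcases min_choice (infEDist x S) 1 with h' | h'
      · rw [← h']; exact h
      · rw [h'] at h; exact absurd h one_ne_zero
    · exact absurd h (min_ne_top S x)
  · intro h
    left
    rw [h]; simp

def C1 (L Ω : Set M) : Set M := {x | infEDist x L < infEDist x Ωᶜ}
def C2 (L Ω : Set M) : Set M := {x | 2 * infEDist x L ≤ infEDist x Ωᶜ}

lemma isOpen_C1 (L Ω : Set M) : IsOpen (C1 L Ω) :=
  isOpen_lt continuous_infEDist continuous_infEDist

lemma isClosed_C2 (L Ω : Set M) : IsClosed (C2 L Ω) :=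
  isClosed_le (ENNReal.continuous_const_mul (by simp) |>.comp continuous_infEDist)
    continuous_infEDist

lemma C1_subset {L Ω : Set M} (hΩ : IsOpen Ω) : C1 L Ω ⊆ Ω := by
  intro x hx
  by_contra h
  have : infEDist x Ωᶜ = 0 := infEDist_zero_of_mem h
  have hx' : infEDist x L < infEDist x Ωᶜ := hx
  rw [this] at hx'
  exact absurd hx' (by simp)

lemma C2_subset_C1 {L Ω : Set M} (hL : IsClosed L) (hLn : L.Nonempty) {x : M} (hxL : x ∉ L)
    (hx : x ∈ C2 L Ω) : x ∈ C1 L Ω := by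
  have h0 : infEDist x L ≠ 0 := fun h => hxL ((mem_iff_infEDist_zero_of_closed hL).2 h)
  have h1 : infEDist x L ≠ ⊤ := infEDist_ne_top hLn
  have hx' : 2 * infEDist x L ≤ infEDist x Ωᶜ := hx
  refine lt_of_lt_of_le ?_ hx'
  rw [two_mul]
  exact ENNReal.lt_add_right h1 h0

lemma exists_ball_subset_C2 {L Ω : Set M} (hΩ : IsOpen Ω) {r : M} (hrL : r ∈ L) (hr : r ∈ Ω) :
    ∃ ρ > 0, ball r ρ ⊆ C2 L Ω := by
  obtain ⟨κ, hκ, hb⟩ := Metric.isOpen_iff.1 hΩ r hr
  refine ⟨κ / 3, by positivity, fun x hx => ?_⟩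
  rw [mem_ball] at hx
  show 2 * infEDist x L ≤ infEDist x Ωᶜ
  have h1 : infEDist x L ≤ ENNReal.ofReal (κ / 3) := by
    refine (infEDist_le_edist_of_mem hrL).trans ?_
    rw [edist_dist]
    exact ENNReal.ofReal_le_ofReal hx.le
  have h2 : ENNReal.ofReal (2 * (κ / 3)) ≤ infEDist x Ωᶜ := by
    rw [le_infEDist]
    intro y hy
    rw [edist_dist]
    apply ENNReal.ofReal_le_ofReal
    by_contra hlt
    push Not at hlt
    apply hy
    apply hb
    rw [mem_ball]
    have := dist_triangle y x r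
    rw [dist_comm y x] at this
    linarith
  refine le_trans ?_ h2
  rw [ENNReal.ofReal_mul (by norm_num)]
  have : ENNReal.ofReal 2 = 2 := by simp
  rw [this]
  gcongr

/-- `Ω` has diameter at least `ε`. -/
def Big (ε : ℝ) (Ω : Set M) : Prop := ∃ x ∈ Ω, ∃ y ∈ Ω, ε ≤ dist x y

lemma Big.mono {ε : ℝ} {S T : Set M} (h : S ⊆ T) (hS : Big ε S) : Big ε T := by
  obtain ⟨x, hx, y, hy, hxy⟩ := hS
  exact ⟨x, h hx, y, h hy, hxy⟩

lemma Big.anti {ε ε' : ℝ} {S : Set M} (h : ε' ≤ ε) (hS : Big ε S) : Big ε' S := by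
  obtain ⟨x, hx, y, hy, hxy⟩ := hS
  exact ⟨x, hx, y, hy, h.trans hxy⟩

lemma big_of_mem_C1 {L Ω : Set M} (hΩ : IsOpen Ω) {η : ℝ} {x : M}
    (hη : ENNReal.ofReal η ≤ infEDist x L) (hx : x ∈ C1 L Ω) : Big η Ω := by
  have hx' : infEDist x L < infEDist x Ωᶜ := hx
  obtain ⟨y, hyL, hy⟩ := infEDist_lt_iff.1 hx'
  refine ⟨x, C1_subset hΩ hx, y, ?_, ?_⟩
  · by_contra h
    exact absurd (infEDist_le_edist_of_mem (show y ∈ Ωᶜ from h)) (not_le.2 hy)
  · have h1 : ENNReal.ofReal η ≤ edist x y := hη.trans (infEDist_le_edist_of_mem hyL)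
    rw [edist_dist] at h1
    exact (ENNReal.ofReal_le_ofReal_iff dist_nonneg).1 h1

lemma isOpen_diff_biUnion {ι : Type*} {Y : Set M} (hY : IsOpen Y) (O : ι → Set M)
    (hO : ∀ i, IsOpen (Y \ O i))
    (hlf : ∀ x ∈ Y, ∃ W ∈ 𝓝 x, {i | (O i ∩ W).Nonempty}.Finite) (B : Set ι) :
    IsOpen (Y \ ⋃ b ∈ B, O b) := by
  rw [isOpen_iff_mem_nhds]
  rintro x ⟨hxY, hx⟩
  obtain ⟨W, hW, hfin⟩ := hlf x hxY
  have h1 : (⋂ i ∈ {i | (O i ∩ W).Nonempty} ∩ B, (Y \ O i)) ∈ 𝓝 x := by
    rw [Filter.biInter_mem (hfin.subset inter_subset_left)]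
    rintro i ⟨-, hiB⟩
    refine (hO i).mem_nhds ⟨hxY, fun hxi => hx ?_⟩
    exact mem_biUnion hiB hxi
  filter_upwards [h1, hW, hY.mem_nhds hxY] with y hy1 hyW hyY
  refine ⟨hyY, fun hy => ?_⟩
  rw [mem_iUnion₂] at hy
  obtain ⟨i, hiB, hyi⟩ := hy
  have := mem_iInter₂.1 hy1 i ⟨⟨y, hyi, hyW⟩, hiB⟩
  exact this.2 hyi

lemma closure_inter_subset_of_isOpen_diff {A E : Set M} (h : IsOpen (A \ E)) {x : M} (hxA : x ∈ A)
    (hx : x ∈ closure E) : x ∈ E := by
  by_contra hxE
  rw [_root_.mem_closure_iff] at hx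
  obtain ⟨y, hy, hyE⟩ := hx _ h ⟨hxA, hxE⟩
  exact hy.2 hyE

/-- Refinement of an open set near a compact set by a null sequence. -/
lemma exists_refine {L : Set M} (hL : IsCompact L) {Ω : Set M} (hΩ : IsOpen Ω) :
    ∃ Λ V : ℕ → Set M, (∀ m, IsClosed (Λ m)) ∧ (∀ m, IsOpen (V m)) ∧ (∀ m, Λ m ⊆ V m) ∧
      (∀ m, closure (V m) ⊆ Ω) ∧ (Ω ∩ L ⊆ ⋃ m, Λ m) ∧ ∀ ε > 0, {m | Big ε (V m)}.Finite := by
  classical
  -- finite nets
  have hnet : ∀ n : ℕ, ∃ t : Finset M, L ⊆ ⋃ x ∈ t, ball x ((1 / 2 : ℝ) ^ n) := by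
    intro n
    obtain ⟨t, -, ht, h⟩ := Metric.totallyBounded_iff.1 hL.totallyBounded ((1 / 2 : ℝ) ^ n)
      (by positivity) |>.imp fun t h => (⟨trivial, h.1, h.2⟩ : True ∧ t.Finite ∧ _)
    refine ⟨ht.toFinset, h.trans ?_⟩
    intro x hx
    simpa using hx
  choose t ht using hnet
  set c : ℕ → ℕ → Option M := fun n i => (t n).toList[i]? with hc
  set good : M → ℕ → Prop := fun x n => closedBall x (4 * (1 / 2 : ℝ) ^ n) ⊆ Ω with hgood
  set Λ : ℕ → Set M := fun m =>
    match c m.unpair.1 m.unpair.2 with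
    | none => ∅
    | some x => if good x m.unpair.1 then closedBall x ((1 / 2 : ℝ) ^ m.unpair.1) else ∅ with hΛ
  set V : ℕ → Set M := fun m =>
    match c m.unpair.1 m.unpair.2 with
    | none => ∅
    | some x => if good x m.unpair.1 then ball x (2 * (1 / 2 : ℝ) ^ m.unpair.1) else ∅ with hV
  have hpos : ∀ n : ℕ, (0 : ℝ) < (1 / 2 : ℝ) ^ n := fun n => by positivity
  refine ⟨Λ, V, ?_, ?_, ?_, ?_, ?_, ?_⟩
  · intro m
    simp only [hΛ]
    split
    · exact isClosed_empty
    · split_ifs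
      · exact isClosed_closedBall
      · exact isClosed_empty
  · intro m
    simp only [hV]
    split
    · exact isOpen_empty
    · split_ifs
      · exact isOpen_ball
      · exact isOpen_empty
  · intro m
    simp only [hΛ, hV]
    split
    · exact subset_rfl
    · split_ifs
      · exact closedBall_subset_ball (by linarith [hpos m.unpair.1])
      · exact subset_rfl
  · intro m
    simp only [hV]
    split
    · simp
    · split_ifs with hg
      · refine closure_ball_subset_closedBall.trans (Subset.trans ?_ hg)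
        exact closedBall_subset_closedBall (by linarith [hpos m.unpair.1])
      · simp
  · rintro r ⟨hrΩ, hrL⟩
    obtain ⟨κ, hκ, hb⟩ := Metric.isOpen_iff.1 hΩ r hrΩ
    obtain ⟨n, hn⟩ := exists_pow_lt_of_lt_one (show (0 : ℝ) < κ / 5 by positivity)
      (show (1 / 2 : ℝ) < 1 by norm_num)
    have hr := ht n hrL
    rw [mem_iUnion₂] at hr
    obtain ⟨x, hxt, hrx⟩ := hr
    have hxl : x ∈ (t n).toList := Finset.mem_toList.2 hxt
    obtain ⟨i, hi⟩ := List.mem_iff_getElem?.1 hxl
    rw [mem_iUnion]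
    refine ⟨Nat.pair n i, ?_⟩
    simp only [hΛ, hc, Nat.unpair_pair, hi]
    rw [if_pos]
    · exact (mem_ball.1 hrx).le
    · intro y hy
      apply hb
      rw [mem_ball] at hrx ⊢
      rw [mem_closedBall] at hy
      have := dist_triangle y x r
      rw [dist_comm x r] at this
      linarith
  · intro ε hε
    obtain ⟨n₀, hn₀⟩ := exists_pow_lt_of_lt_one (show (0 : ℝ) < ε / 4 by positivity)
      (show (1 / 2 : ℝ) < 1 by norm_num)
    have hfin : (⋃ n ∈ Finset.range n₀, (Nat.pair n) '' {i | i < (t n).toList.length}).Finite := by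
      apply Set.Finite.biUnion (Finset.finite_toSet _)
      intro n _
      exact (finite_lt_nat _).image _
    refine hfin.subset ?_
    rintro m hm
    have hm' : Big ε (V m) := hm
    simp only [hV, hc] at hm'
    rcases hopt : (t m.unpair.1).toList[m.unpair.2]? with _ | x
    · rw [hopt] at hm'
      obtain ⟨x, hx, -⟩ := hm'
      exact absurd hx (by simp)
    · rw [hopt] at hm'
      simp only at hm'
      split_ifs at hm' with hg
      · have hlen : m.unpair.2 < (t m.unpair.1).toList.length := by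
          by_contra h
          push Not at h
          rw [List.getElem?_eq_none h] at hopt
          exact absurd hopt (by simp)
        obtain ⟨y, hy, z, hz, hyz⟩ := hm'
        rw [mem_ball] at hy hz
        have h4 : ε < 4 * (1 / 2 : ℝ) ^ m.unpair.1 := by
          have := dist_triangle y x z
          rw [dist_comm x z] at this
          linarith
        have hlt : m.unpair.1 < n₀ := by
          by_contra h
          push Not at h
          have := pow_le_pow_of_le_one (show (0 : ℝ) ≤ 1 / 2 by norm_num) (by norm_num) h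
          linarith
        rw [mem_iUnion₂]
        refine ⟨m.unpair.1, by simpa using hlt, ?_⟩
        exact ⟨m.unpair.2, hlen, Nat.pair_unpair m⟩
      · obtain ⟨x, hx, -⟩ := hm'
        exact absurd hx (by simp)

/-- The lemma on cells cut out by `G`. -/
lemma PAt_cells {L G : Set M} (hG : DD L 1 G) {ι : Type*} (Q W : ι → Set M)
    (hQo : ∀ i, IsOpen (Q i)) (hQd : ∀ i j, i ≠ j → Disjoint (Q i) (Q j)) (hQW : ∀ i, Q i ⊆ W i)
    (hnull : ∀ ε > 0, {i | Big ε (W i)}.Finite) {r : M} (hr : ∀ i, r ∉ closure (W i)) :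
    PAt (DD L 1) (G ∪ ⋃ i, Q i) r := by
  intro ε hε
  have hF := hnull (ε / 4) (by positivity)
  have h1 : (⋂ i ∈ {i | Big (ε / 4) (W i)}, (closure (W i))ᶜ) ∈ 𝓝 r := by
    rw [Filter.biInter_mem hF]
    intro i _
    exact isClosed_closure.isOpen_compl.mem_nhds (hr i)
  obtain ⟨δ₁, hδ₁, hb⟩ := Metric.mem_nhds_iff.1 h1
  set δ := min δ₁ (ε / 4) with hδ
  have hδpos : 0 < δ := by positivity
  set Q₁ := ⋃ i ∈ {i | (Q i ∩ ball r δ).Nonempty}, Q i with hQ₁
  set Q₂ := ⋃ i ∈ {i | ¬ (Q i ∩ ball r δ).Nonempty}, Q i with hQ₂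
  have hQ₁o : IsOpen Q₁ := isOpen_biUnion fun i _ => hQo i
  have hQ₂o : IsOpen Q₂ := isOpen_biUnion fun i _ => hQo i
  have hsmall : ball r δ ∪ Q₁ ⊆ closedBall r (ε / 2) := by
    rintro x (hx | hx)
    · rw [mem_ball] at hx
      rw [mem_closedBall]
      have : δ ≤ ε / 4 := min_le_right _ _
      linarith
    · rw [hQ₁, mem_iUnion₂] at hx
      obtain ⟨i, ⟨y, hyQ, hyr⟩, hxi⟩ := hx
      rw [mem_ball] at hyr
      have hyr' : y ∈ ball r δ₁ := by
        rw [mem_ball]; exact lt_of_lt_of_le hyr (min_le_left _ _)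
      have hnb : ¬ Big (ε / 4) (W i) := by
        intro hbig
        have := mem_iInter₂.1 (hb hyr') i hbig
        exact this (subset_closure (hQW i hyQ))
      have hxy : dist x y < ε / 4 := by
        by_contra h
        push Not at h
        exact hnb ⟨x, hQW i hxi, y, hQW i hyQ, h⟩
      have : δ ≤ ε / 4 := min_le_right _ _
      rw [mem_closedBall]
      have := dist_triangle x y r
      linarith
  refine ⟨δ, hδpos, ball r δ ∪ Q₁, Q₂ ∪ (closedBall r (ε / 2))ᶜ, isOpen_ball.union hQ₁o,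
    hQ₂o.union isClosed_closedBall.isOpen_compl, ?_, ?_, ?_, ?_⟩
  · rw [disjoint_left]
    rintro x ⟨-, hxU⟩ (hx | hx)
    · rw [hQ₂, mem_iUnion₂] at hx
      obtain ⟨j, hj, hxj⟩ := hx
      rcases hxU with hxU | hxU
      · exact hj ⟨x, hxj, hxU⟩
      · rw [hQ₁, mem_iUnion₂] at hxU
        obtain ⟨i, hi, hxi⟩ := hxU
        have hij : i ≠ j := by
          rintro rfl
          exact hj hi
        exact disjoint_left.1 (hQd i j hij) hxi hxj
    · exact hx (hsmall hxU)
  · rintro x ⟨-, hx⟩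
    exact Or.inl hx
  · rintro x ⟨-, hx⟩
    right
    rw [mem_compl_iff, mem_closedBall, not_le]
    rw [mem_ball, not_lt] at hx
    linarith
  · refine DD.mono ?_ hG
    rintro x ⟨hxH, hx⟩
    rcases hxH with hxG | hxQ
    · exact hxG
    · exfalso
      rw [mem_iUnion] at hxQ
      obtain ⟨i, hxi⟩ := hxQ
      apply hx
      by_cases hi : (Q i ∩ ball r δ).Nonempty
      · left; right
        exact mem_biUnion (show i ∈ {i | (Q i ∩ ball r δ).Nonempty} from hi) hxi
      · right; left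
        exact mem_biUnion (show i ∈ {i | ¬ (Q i ∩ ball r δ).Nonempty} from hi) hxi

end CmpZ
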