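import Pool.Agent.Lib_helper71.Cmp.Cover
import Pool.Agent.Lib_helper71.Cmp.Reduce

open Set Metric Topology

namespace CmpZ

lemma openFace_eq_pi (n : ℕ) :
    openFace n = Set.pi univ (fun i : Fin n => if (i : ℕ) + 1 = n then {1} else Ioo (-1 : ℝ) 1) := by
  ext x
  simp only [openFace, mem_ofPred_eq, mem_pi, mem_univ, true_implies]
  refine forall_congr' fun i => ?_
  split_ifs <;> simp

lemma closure_openFace (n : ℕ) :
    closure (openFace n) = {x | ∀ i : Fin n, if (i : ℕ) + 1 = n then x i = 1
      else x i ∈ Icc (-1 : ℝ) 1} := by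
  rw [openFace_eq_pi, closure_pi_set]
  ext x
  simp only [mem_ofPred_eq, mem_pi, mem_univ, true_implies]
  refine forall_congr' fun i => ?_
  split_ifs
  · simp
  · rw [closure_Ioo (by norm_num)]

lemma isCompact_cube (n : ℕ) : IsCompact {x : Fin n → ℝ | ∀ i, x i ∈ Icc (-1 : ℝ) 1} := by
  have : {x : Fin n → ℝ | ∀ i, x i ∈ Icc (-1 : ℝ) 1} = Set.pi univ (fun _ => Icc (-1 : ℝ) 1) := by
    ext x
    simp only [mem_ofPred_eq, mem_pi, mem_univ, true_implies]
  rw [this]
  exact isCompact_univ_pi fun _ => isCompact_Icc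

lemma closure_openFace_subset (n : ℕ) :
    closure (openFace n) ⊆ {x : Fin n → ℝ | ∀ i, x i ∈ Icc (-1 : ℝ) 1} := by
  rw [closure_openFace]
  intro x hx i
  have := hx i
  split_ifs at this
  · rw [this]; norm_num
  · exact this

lemma isCompact_rim (n : ℕ) : IsCompact (closure (openFace n) \ openFace n) := by
  have h1 : IsCompact (closure (openFace n)) :=
    (isCompact_cube n).of_isClosed_subset isClosed_closure (closure_openFace_subset n)
  refine h1.of_isClosed_subset ?_ sdiff_subset
  have : closure (openFace n) \ openFace n = closure (openFace n) \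
      ⋂ i : Fin n, {x : Fin n → ℝ | (i : ℕ) + 1 ≠ n → x i ∈ Ioo (-1 : ℝ) 1} := by
    ext x
    simp only [mem_sdiff, mem_iInter, mem_ofPred_eq, and_congr_right_iff]
    intro hx
    rw [closure_openFace] at hx
    rw [not_iff_not]
    simp only [openFace, mem_ofPred_eq]
    refine forall_congr' fun i => ?_
    have := hx i
    split_ifs at this ⊢ with hi
    · simp [hi, this]
    · simp [hi]
  rw [this]
  refine isClosed_closure.sdiff ?_
  refine isOpen_iInter_of_finite fun i => ?_
  by_cases hi : (i : ℕ) + 1 = n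
  · have : {x : Fin n → ℝ | (i : ℕ) + 1 ≠ n → x i ∈ Ioo (-1 : ℝ) 1} = univ := by
      ext x; simp [hi]
    rw [this]
    exact isOpen_univ
  · have : {x : Fin n → ℝ | (i : ℕ) + 1 ≠ n → x i ∈ Ioo (-1 : ℝ) 1} =
        (fun x : Fin n → ℝ => x i) ⁻¹' Ioo (-1 : ℝ) 1 := by
      ext x; simp [hi]
    rw [this]
    exact isOpen_Ioo.preimage (continuous_apply i)

lemma openFace_subset_cover {n : ℕ} (hn : 2 ≤ n) :
    openFace n ⊆ ⋃ c, colour (closure (openFace n) \ openFace n) c := by
  intro x hx
  have hi0 : (⟨0, by omega⟩ : Fin n) = ⟨0, by omega⟩ := rfl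
  set i0 : Fin n := ⟨0, by omega⟩ with hi0
  have hi0n : (i0 : ℕ) + 1 ≠ n := by
    simp only [hi0]
    omega
  have hxi : x i0 ∈ Ioo (-1 : ℝ) 1 := by
    have := hx i0
    rw [if_neg hi0n] at this
    exact this
  set y : Fin n → ℝ := Function.update x i0 1 with hy
  have hyL : y ∈ closure (openFace n) \ openFace n := by
    constructor
    · rw [closure_openFace]
      intro i
      by_cases hi : i = i0
      · rw [if_neg (hi ▸ hi0n), hi, hy, Function.update_self]
        norm_num
      · rw [hy, Function.update_of_ne hi]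
        have := hx i
        split_ifs at this ⊢
        · exact this
        · exact Ioo_subset_Icc_self this
    · intro h
      have := h i0
      rw [if_neg hi0n, hy, Function.update_self] at this
      exact lt_irrefl _ this.2
  apply cover_colour
  · have hc : IsClosed (closure (openFace n) \ openFace n) := (isCompact_rim n).isClosed
    rw [← hc.notMem_iff_infDist_pos ⟨y, hyL⟩]
    exact fun h => h.2 hx
  · refine (infDist_le_dist_of_mem hyL).trans_lt ?_
    rw [dist_pi_lt_iff (by norm_num)]
    intro i
    by_cases hi : i = i0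
    · rw [hi, hy, Function.update_self, Real.dist_eq, abs_lt]
      constructor <;> linarith [hxi.1, hxi.2]
    · rw [hy, Function.update_of_ne hi, dist_self]
      norm_num

/-- **Upper bound**: `cmp Z_n ≤ 2`. -/
theorem cmpLE_Z {n : ℕ} (hn : 2 ≤ n) : CmpLE 3 (Z n) := by
  have hL := isCompact_rim n
  have hcov : Cov (closure (openFace n) \ openFace n)
      (⋃ c, colour (closure (openFace n) \ openFace n) c) :=
    Cov.iUnion _ (fun c => isOpen_colour c) (fun c => colour_disjoint c) (fun c => colour_DD c)
  have hDD := hcov.DD3 hL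
  refine cmpLE_of_DD (isCompact_cube n) (E := openFace n) rfl 3 _ (isCompact_cube n).isClosed
    subset_rfl (hDD.mono (inter_subset_right.trans (openFace_subset_cover hn))) (Z n) Subtype.val
    IsEmbedding.subtypeVal ?_
  rw [Subtype.range_coe]
  rfl

end CmpZ
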